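import Pool.Agent.R410.BS.BB

/-!
# The sum of the traces over the points of the fibre product
-/

set_option autoImplicit false
set_option linter.all false

open Polynomial Finset

namespace Pool.Agent.R410.BS

open Pool.Agent.TH958.An (trE tF)
open Pool.Agent.TH958.FP (RR yR yR_sq mkR mkR_surj)

section
variable {F : Type} [Field F]

/-- the curve `Y² = c(X) + w` -/
noncomputable def cub {S : Type} [CommRing S] (c : S[X]) (w : S) : WeierstrassCurve S :=
  ⟨0, c.coeff 2, 0, c.coeff 1, c.coeff 0 + w⟩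

theorem cub_Δ {S : Type} [CommRing S] (c : S[X]) (w : S) : (cub c w).Δ =
    -432 * (c.coeff 0 + w) ^ 2 + (288 * c.coeff 2 * c.coeff 1 - 64 * c.coeff 2 ^ 3) *
      (c.coeff 0 + w) + (16 * c.coeff 2 ^ 2 * c.coeff 1 ^ 2 - 64 * c.coeff 1 ^ 3) := by
  unfold cub WeierstrassCurve.Δ WeierstrassCurve.b₂ WeierstrassCurve.b₄ WeierstrassCurve.b₆
    WeierstrassCurve.b₈
  ring

theorem cub_map {S T : Type} [CommRing S] [CommRing T] (θ : S →+* T) (c : S[X]) (w : S) :
    (cub c w).map θ = cub (c.map θ) (θ w) := by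
  unfold cub
  apply WeierstrassCurve.ext
  · exact map_zero _
  · show θ (c.coeff 2) = (c.map θ).coeff 2
    rw [coeff_map]
  · exact map_zero _
  · show θ (c.coeff 1) = (c.map θ).coeff 1
    rw [coeff_map]
  · show θ (c.coeff 0 + w) = (c.map θ).coeff 0 + θ w
    rw [coeff_map, map_add]

variable [Fintype F] [DecidableEq F]

theorem bad_card (h6 : (6 : F) ≠ 0) (c : F[X]) :
    (univ.filter fun w => (cub c w).Δ = 0).card ≤ 2 := by
  classical
  let Q : F[X] := C (-432) * X ^ 2 + C (288 * c.coeff 2 * c.coeff 1 - 64 * c.coeff 2 ^ 3) * X +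
    C (16 * c.coeff 2 ^ 2 * c.coeff 1 ^ 2 - 64 * c.coeff 1 ^ 3)
  have h2 : (2 : F) ≠ 0 := fun h => h6 (by
    have : (6 : F) = 2 * 3 := by norm_num
    rw [this, h, zero_mul])
  have h3 : (3 : F) ≠ 0 := fun h => h6 (by
    have : (6 : F) = 2 * 3 := by norm_num
    rw [this, h, mul_zero])
  have hc : (-432 : F) ≠ 0 := by
    have : (-432 : F) = -(2 ^ 4 * 3 ^ 3) := by norm_num
    rw [this]
    exact neg_ne_zero.2 (mul_ne_zero (pow_ne_zero _ h2) (pow_ne_zero _ h3))
  have key : ∀ a b d : F, (C a * X ^ 2 + C b * X + C d : F[X]).coeff 2 = a := by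
    intro a b d
    simp [coeff_X, coeff_C]
  have hQ2 : Q.coeff 2 = -432 := key _ _ _
  have hQ0 : Q ≠ 0 := by
    intro h
    rw [h, coeff_zero] at hQ2
    exact hc hQ2.symm
  have hQd : Q.natDegree ≤ 2 := by
    show (C (-432) * X ^ 2 + C (288 * c.coeff 2 * c.coeff 1 - 64 * c.coeff 2 ^ 3) * X +
      C (16 * c.coeff 2 ^ 2 * c.coeff 1 ^ 2 - 64 * c.coeff 1 ^ 3) : F[X]).natDegree ≤ 2
    compute_degree
  have h1 : (univ.filter fun w => (cub c w).Δ = 0).card ≤ Q.roots.toFinset.card := by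
    refine card_le_card_of_injOn (fun w => c.coeff 0 + w) ?_ ?_
    · intro w hw
      rw [coe_filter, Set.mem_ofPred_eq, cub_Δ] at hw
      rw [mem_coe, Multiset.mem_toFinset, mem_roots hQ0, IsRoot.def]
      show (C (-432) * X ^ 2 + C (288 * c.coeff 2 * c.coeff 1 - 64 * c.coeff 2 ^ 3) * X +
        C (16 * c.coeff 2 ^ 2 * c.coeff 1 ^ 2 - 64 * c.coeff 1 ^ 3) : F[X]).eval _ = 0
      simp only [eval_add, eval_mul, eval_C, eval_pow, eval_X]
      exact hw.2
    · intro w _ w' _ h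
      exact add_left_cancel h
  exact h1.trans ((Multiset.toFinset_card_le _).trans ((card_roots' _).trans hQd))

theorem card_aff (hF : ringChar F ≠ 2) (c : F[X]) (w : F) :
    (Nat.card {p : F × F // p.2 ^ 2 = c.eval p.1 + w} : ℤ) = Fintype.card F + Sw c w := by
  have g0 : Nat.card {p : F × F // p.2 ^ 2 = c.eval p.1 + w} =
      (univ.filter fun P : F × F => P.2 ^ 2 = c.eval P.1 + w).card := by
    rw [Nat.card_eq_fintype_card, Fintype.card_subtype]
  have g1 : (univ.filter fun P : F × F => P.2 ^ 2 = c.eval P.1 + w).card =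
      ∑ x : F, (univ.filter fun z : F => z ^ 2 = c.eval x + w).card := by
    rw [card_filter, Fintype.sum_prod_type]
    refine sum_congr rfl fun x _ => ?_
    rw [card_filter]
  rw [g0, g1, Nat.cast_sum]
  have g2 : ∀ x : F, ((univ.filter fun z : F => z ^ 2 = c.eval x + w).card : ℤ) =
      quadraticChar F (c.eval x + w) + 1 := by
    intro x
    rw [← quadraticChar_card_sqrts hF]
    congr 2
    ext z
    simp
  rw [sum_congr rfl fun x _ => g2 x, sum_add_distrib, Sw, sum_const,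
    card_univ, nsmul_eq_mul, mul_one, add_comm]

end

section
variable {A : Type} [CommRing A] {r : ℕ} (f : Fin r → A[X]) (f₀ : A[X])
  {F : Type} [Field F] [Fintype F] [DecidableEq F]

/-- the elliptic curve over the fibre product -/
noncomputable def EB : WeierstrassCurve (BB f) := cub (f₀.map (cst f)) (wB f)

theorem EB_map (φ : BB f →+* F) : (EB f f₀).map φ = cub (f₀.map (φ.comp (cst f))) (φ (wB f)) := by
  unfold EB
  rw [cub_map, Polynomial.map_map]

theorem sum_bb_general (hF : ringChar F ≠ 2) [Fintype (BB f →+* F)] [Fintype (A →+* F)]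
    (G : (A →+* F) → F → ℝ) : ∑ φ : BB f →+* F, G (φ.comp (cst f)) (φ (wB f)) =
      ∑ ψ : A →+* F, ∑ w : F, G ψ w * ∏ i, ((Fintype.card F : ℝ) + Sw ((f i).map ψ) w) := by
  classical
  let T : (A →+* F) → F → Fin r → Type := fun ψ w i => {p : F × F // p.2 ^ 2 = ((f i).map ψ).eval p.1 + w}
  have h1 : ∑ φ : BB f →+* F, G (φ.comp (cst f)) (φ (wB f)) =
      ∑ v : (Σ ψ : A →+* F, Σ w : F, ∀ i : Fin r, T ψ w i), G v.1 v.2.1 :=
    Fintype.sum_equiv (bbEquiv f F) _ (fun v => G v.1 v.2.1) (fun φ => rfl)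
  rw [h1, Fintype.sum_sigma]
  refine sum_congr rfl fun ψ _ => ?_
  rw [Fintype.sum_sigma]
  refine sum_congr rfl fun w _ => ?_
  have h2 : ∑ p : (∀ i : Fin r, T ψ w i), G ψ w =
      (Fintype.card (∀ i : Fin r, T ψ w i) : ℝ) * G ψ w := by
    rw [sum_const, card_univ, nsmul_eq_mul]
  have h3 : (Fintype.card (∀ i : Fin r, T ψ w i) : ℝ) =
      ∏ i, ((Fintype.card F : ℝ) + Sw ((f i).map ψ) w) := by
    rw [← Nat.card_eq_fintype_card, Nat.card_pi, Nat.cast_prod]
    refine prod_congr rfl fun i _ => ?_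
    have := congrArg (fun z : ℤ => (z : ℝ)) (card_aff hF ((f i).map ψ) w)
    push_cast at this
    exact this
  rw [mul_comm, ← h3]
  exact h2

theorem tF_EB (hF : ringChar F ≠ 2) (hm : f₀.Monic) (hd : f₀.natDegree = 3) (φ : BB f →+* F) :
    tF (EB f f₀) (EB f f₀).Δ φ =
      if (cub (f₀.map (φ.comp (cst f))) (φ (wB f))).Δ = 0 then 0 else
        -(Sw (f₀.map (φ.comp (cst f))) (φ (wB f)) : ℝ) := by
  have h1 : φ (EB f f₀).Δ = (cub (f₀.map (φ.comp (cst f))) (φ (wB f))).Δ := by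
    rw [← EB_map, WeierstrassCurve.map_Δ]
  unfold tF
  rw [h1]
  by_cases h : (cub (f₀.map (φ.comp (cst f))) (φ (wB f))).Δ = 0
  · rw [if_neg (not_not.2 h), if_pos h]
  · rw [if_pos h, if_neg h, EB_map]
    have h2 := trE_cubic hF (cub (f₀.map (φ.comp (cst f))) (φ (wB f))) (f₀.map (φ.comp (cst f)))
      (φ (wB f)) (hm.map _) (by rw [hm.natDegree_map, hd]) rfl rfl rfl rfl rfl h
    rw [h2]
    push_cast
    rfl

open Classical in
theorem sum_bb (hF : ringChar F ≠ 2) (hm : f₀.Monic) (hd : f₀.natDegree = 3)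
    [Fintype (BB f →+* F)] [Fintype (A →+* F)] (τ : A) :
    ∑ φ : BB f →+* F, (if φ (cst f τ) ≠ 0 then tF (EB f f₀) (EB f f₀).Δ φ else 0) =
      ∑ ψ : A →+* F, if ψ τ ≠ 0 then
        ∑ w ∈ univ.filter (fun w => w ∉ univ.filter fun w => (cub (f₀.map ψ) w).Δ = 0),
          (-(Sw (f₀.map ψ) w : ℝ)) * ∏ i, ((Fintype.card F : ℝ) + Sw ((f i).map ψ) w) else 0 := by
  have h1 := sum_bb_general f hF (fun ψ w => if ψ τ ≠ 0 then
    (if (cub (f₀.map ψ) w).Δ = 0 then 0 else -(Sw (f₀.map ψ) w : ℝ)) else 0)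
  have h2 : ∑ φ : BB f →+* F, (if φ (cst f τ) ≠ 0 then tF (EB f f₀) (EB f f₀).Δ φ else 0) =
      ∑ φ : BB f →+* F, (if (φ.comp (cst f)) τ ≠ 0 then
        (if (cub (f₀.map (φ.comp (cst f))) (φ (wB f))).Δ = 0 then 0 else
          -(Sw (f₀.map (φ.comp (cst f))) (φ (wB f)) : ℝ)) else 0) := by
    refine sum_congr rfl fun φ _ => ?_
    rw [tF_EB f f₀ hF hm hd]
    rfl
  rw [h2, h1]
  refine sum_congr rfl fun ψ _ => ?_
  by_cases hψ : ψ τ ≠ 0
  · rw [if_pos hψ, sum_filter]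
    refine sum_congr rfl fun w _ => ?_
    rw [if_pos hψ]
    by_cases hw : (cub (f₀.map ψ) w).Δ = 0
    · rw [if_pos hw, zero_mul, if_neg]
      simp [hw]
    · rw [if_neg hw, if_pos]
      simp [hw]
  · rw [if_neg hψ]
    refine sum_eq_zero fun w _ => ?_
    rw [if_neg hψ, zero_mul]

end

end Pool.Agent.R410.BS
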