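import Pool.Agent.R410.BS.Arr

/-!
# The Euler product of an elliptic curve over a model, from the sums of the traces: the order
-/

set_option autoImplicit false
set_option linter.all false

open NumberField

namespace Pool.Agent.R410.BS

open Pool.Agent.TH958.An
open Pool.Agent.H126R3 (exists_F le_of_cast_zero Qc Qc_pos Qc_rpow)
open Pool.Agent.Y707.RX (cmb)

section
variable {κ : Type} [Fintype κ] (L : κ → Type) [∀ j, Field (L j)] [∀ j, NumberField (L j)]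
  (a : κ → ℝ)

/-- the combination of the numbers of the homomorphisms to a finite field -/
noncomputable def cF (F : Type) [CommRing F] : ℝ := ∑ j, a j * (Nat.card (𝓞 (L j) →+* F) : ℝ)

/-- a bound -/
noncomputable def cB : ℝ := ∑ j, |a j| * (Module.finrank ℤ (𝓞 (L j)) : ℝ)

theorem cF_le (F : Type) [Field F] [Finite F] : |cF L a F| ≤ cB L a := by
  unfold cF cB
  refine (Finset.abs_sum_le_sum_abs _ _).trans (Finset.sum_le_sum fun j _ => ?_)
  rw [abs_mul, Nat.abs_cast]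
  refine mul_le_mul_of_nonneg_left ?_ (abs_nonneg _)
  exact_mod_cast (Pool.Agent.W385.CP.hom_int (L j) F).2

theorem cB_nonneg : 0 ≤ cB L a := Finset.sum_nonneg fun j _ => by positivity

theorem cmb_eq (p : Nat.Primes) : cmb L a p = ((cF L a (ZMod (p : ℕ)) : ℝ) : ℂ) := by
  unfold cmb cF
  push_cast
  rfl

variable {R : Type} [CommRing R] [Algebra.FiniteType ℤ R]

/-- The Euler product of an elliptic curve over a scheme of finite type over the integers, from the sums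
of the traces over finite fields. -/
theorem arith2 (E : WeierstrassCurve R) (N : R) (h2 : (2 : R) ∣ N) (e : ℕ) (he : 1 ≤ e)
    (hb : ∀ (F : Type) [Field F] [Fintype F] (φ : R →+* F), φ N ≠ 0 →
      |(trE (E.map φ) : ℝ)| ≤ 2 * Real.sqrt (Fintype.card F))
    (C : ℝ) (hC0 : 0 ≤ C) (hC : ∀ (F : Type) [Field F] [Finite F],
      (Nat.card (R →+* F) : ℝ) ≤ C * (Nat.card F : ℝ) ^ e)
    {r : ℤ} (hr : ∑ j, a j = r) (M : ℕ) (hM : M ≠ 0) (K : ℝ) (hK : 0 ≤ K)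
    (hT : ∀ (F : Type) [Field F] [Fintype F], ((M : ℕ) : F) ≠ 0 →
      |∑ᶠ φ : R →+* F, tF E N φ + cF L a F * (Nat.card F : ℝ) ^ e| * √(Nat.card F : ℝ) ≤
        K * (Nat.card F : ℝ) ^ e) :
    ∃ Φ : ℂ → ℂ,
      (∀ s : ℂ, (e : ℝ) + 3 / 2 < s.re → HasProd (fun y : {y : Pt R // N ∉ y.asIdeal} =>
        (1 - (ay E y.1 : ℂ) * (qy y.1 : ℂ) ^ (-s) + (qy y.1 : ℂ) ^ (1 - 2 * s))⁻¹) (Φ s)) ∧
      DifferentiableOn ℂ Φ {s : ℂ | (e : ℝ) + 1 < s.re} ∧
      MeromorphicAt Φ ((e : ℂ) + 1) ∧ meromorphicOrderAt Φ ((e : ℂ) + 1) = r := by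
  classical
  have hC' : ∀ (F : Type) [Field F] [Fintype F],
      (Nat.card (R →+* F) : ℝ) ≤ C * (Fintype.card F : ℝ) ^ (e : ℝ) := by
    intro F _ _
    rw [Real.rpow_natCast, ← Nat.card_eq_fintype_card]
    exact hC F
  set D := datE E N h2 e he hb C hC0 hC' with hD
  have hDC : D.C = C := rfl
  set B := cB L a with hB
  have hB0 : 0 ≤ B := cB_nonneg L a
  have hM0 : (0 : ℝ) ≤ M := Nat.cast_nonneg _
  have hM' : ((M : ℕ) : ℤ) ≠ 0 := by exact_mod_cast hM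
  have hle : ∀ (p : Nat.Primes) (k : ℕ) {F : Type} [Field F] [Fintype F],
      Fintype.card F = (p : ℕ) ^ (k + 1) → ((M : ℕ) : F) = 0 → ((p : ℕ) : ℝ) ≤ M := by
    intro p k F _ _ hF h0
    have h1 := le_of_cast_zero p k hF _ hM' (by exact_mod_cast h0)
    simpa using h1
  -- good characteristics
  have hgood : ∀ (F : Type) [Field F] [Fintype F], ((M : ℕ) : F) ≠ 0 →
      |∑ᶠ φ : R →+* F, tF E N φ| ≤ (K + B) * (Nat.card F : ℝ) ^ e := by
    intro F _ _ hF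
    have h1 := hT F hF
    have hq1 : (1 : ℝ) ≤ Nat.card F := by exact_mod_cast Nat.card_pos
    have hs1 : 1 ≤ √(Nat.card F : ℝ) := Real.one_le_sqrt.2 hq1
    have hqe : (0 : ℝ) ≤ (Nat.card F : ℝ) ^ e := by positivity
    have h3 : |∑ᶠ φ : R →+* F, tF E N φ + cF L a F * (Nat.card F : ℝ) ^ e| ≤
        K * (Nat.card F : ℝ) ^ e := (le_mul_of_one_le_right (abs_nonneg _) hs1).trans h1
    have h4 : |cF L a F * (Nat.card F : ℝ) ^ e| ≤ B * (Nat.card F : ℝ) ^ e := by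
      rw [abs_mul, abs_of_nonneg hqe]
      exact mul_le_mul_of_nonneg_right (cF_le L a F) hqe
    have h5 := abs_sub (∑ᶠ φ : R →+* F, tF E N φ + cF L a F * (Nat.card F : ℝ) ^ e)
      (cF L a F * (Nat.card F : ℝ) ^ e)
    rw [add_sub_cancel_right] at h5
    linarith
  set K' : ℝ := K + B + C + 2 * C * M with hK'
  have hK'0 : 0 ≤ K' := by positivity
  have b0 : ∀ p : Nat.Primes, |Ac D (p, 0)| ≤ K' * ((p : ℕ) : ℝ) ^ e := by
    intro p
    have hp0 : (0 : ℝ) < ((p : ℕ) : ℝ) := by exact_mod_cast p.2.pos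
    have hp1 : (1 : ℝ) ≤ ((p : ℕ) : ℝ) := by exact_mod_cast p.2.pos
    obtain ⟨F, _, _, hF⟩ := exists_F (p, 0)
    have hF' : Fintype.card F = (p : ℕ) ^ (0 + 1) := hF
    have hcard : (Nat.card F : ℝ) = ((p : ℕ) : ℝ) := by
      rw [Nat.card_eq_fintype_card, hF']; push_cast; ring
    have hpe : (0 : ℝ) ≤ ((p : ℕ) : ℝ) ^ e := by positivity
    by_cases hMF : ((M : ℕ) : F) = 0
    · have h6 := hle p 0 hF' hMF
      have h7 := Ac_trivial D (p, 0)
      have hQp : (Qc (p, 0) : ℝ) = ((p : ℕ) : ℝ) := by rw [Qc]; simp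
      rw [hQp, hDC, Real.rpow_add hp0, Real.rpow_natCast] at h7
      have h8 : ((p : ℕ) : ℝ) ^ (1 / 2 : ℝ) ≤ ((p : ℕ) : ℝ) := by
        nth_rewrite 2 [← Real.rpow_one ((p : ℕ) : ℝ)]
        exact Real.rpow_le_rpow_of_exponent_le hp1 (by norm_num)
      calc |Ac D (p, 0)| ≤ 2 * C * (((p : ℕ) : ℝ) ^ e * ((p : ℕ) : ℝ) ^ (1 / 2 : ℝ)) := h7
        _ ≤ 2 * C * (((p : ℕ) : ℝ) ^ e * M) := by
            refine mul_le_mul_of_nonneg_left ?_ (by positivity)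
            exact mul_le_mul_of_nonneg_left (h8.trans h6) hpe
        _ = (2 * C * M) * ((p : ℕ) : ℝ) ^ e := by ring
        _ ≤ K' * ((p : ℕ) : ℝ) ^ e := mul_le_mul_of_nonneg_right (by rw [hK']; linarith) hpe
    · have h6 := hgood F hMF
      rw [hcard] at h6
      have h7 : Ac D (p, 0) = ∑ᶠ φ : R →+* F, tF E N φ := by
        let _ := D.fin (p, 0)
        exact Ac_zero E N p hF'
      rw [h7]
      refine h6.trans (mul_le_mul_of_nonneg_right ?_ hpe)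
      have : 0 ≤ 2 * C * M := by positivity
      rw [hK']
      linarith
  have b1 : ∀ p : Nat.Primes, |Ac D (p, 1)| ≤ K' * ((p : ℕ) : ℝ) ^ (2 * e) := by
    intro p
    have hp0 : (0 : ℝ) < ((p : ℕ) : ℝ) := by exact_mod_cast p.2.pos
    have hp1 : (1 : ℝ) ≤ ((p : ℕ) : ℝ) := by exact_mod_cast p.2.pos
    obtain ⟨F₀, _, _, hF₀⟩ := exists_F (p, 0)
    have hF₀' : Fintype.card F₀ = (p : ℕ) ^ (0 + 1) := hF₀
    have hcard₀ : (Nat.card F₀ : ℝ) = ((p : ℕ) : ℝ) := by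
      rw [Nat.card_eq_fintype_card, hF₀']; push_cast; ring
    obtain ⟨F, _, _, hF⟩ := exists_F (p, 1)
    have hF' : Fintype.card F = (p : ℕ) ^ (1 + 1) := hF
    have hcard : (Nat.card F : ℝ) = ((p : ℕ) : ℝ) ^ 2 := by
      rw [Nat.card_eq_fintype_card, hF', Nat.cast_pow]
    have hpe : (0 : ℝ) ≤ ((p : ℕ) : ℝ) ^ (2 * e) := by positivity
    by_cases hMF : ((M : ℕ) : F) = 0
    · have h6 := hle p 1 hF' hMF
      have h7 := Ac_trivial D (p, 1)
      have hQp : (Qc (p, 1) : ℝ) = ((p : ℕ) : ℝ) ^ 2 := by rw [Qc, Nat.cast_pow]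
      have hs : (((p : ℕ) : ℝ) ^ 2) ^ (1 / 2 : ℝ) = ((p : ℕ) : ℝ) := by
        rw [← Real.sqrt_eq_rpow, Real.sqrt_sq hp0.le]
      rw [hQp, hDC, Real.rpow_add (by positivity), Real.rpow_natCast, hs, ← pow_mul] at h7
      calc |Ac D (p, 1)| ≤ 2 * C * (((p : ℕ) : ℝ) ^ (2 * e) * ((p : ℕ) : ℝ)) := h7
        _ ≤ 2 * C * (((p : ℕ) : ℝ) ^ (2 * e) * M) := by
            refine mul_le_mul_of_nonneg_left ?_ (by positivity)
            exact mul_le_mul_of_nonneg_left h6 hpe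
        _ = (2 * C * M) * ((p : ℕ) : ℝ) ^ (2 * e) := by ring
        _ ≤ K' * ((p : ℕ) : ℝ) ^ (2 * e) := mul_le_mul_of_nonneg_right (by rw [hK']; linarith) hpe
    · have h6 := hgood F hMF
      rw [hcard, ← pow_mul] at h6
      have h7 : |Ac D (p, 1)| ≤ |∑ᶠ φ : R →+* F, tF E N φ| + (Nat.card (R →+* F₀) : ℝ) * (p : ℕ) := by
        let _ := D.fin (p, 1)
        exact Ac_one E N hb p hF' hF₀'
      have h8 := hC F₀
      rw [hcard₀] at h8
      have h13 : (Nat.card (R →+* F₀) : ℝ) * (p : ℕ) ≤ C * ((p : ℕ) : ℝ) ^ (2 * e) := by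
        calc (Nat.card (R →+* F₀) : ℝ) * (p : ℕ) ≤ (C * ((p : ℕ) : ℝ) ^ e) * (p : ℕ) :=
              mul_le_mul_of_nonneg_right h8 hp0.le
          _ = C * ((p : ℕ) : ℝ) ^ (e + 1) := by ring
          _ ≤ C * ((p : ℕ) : ℝ) ^ (2 * e) :=
              mul_le_mul_of_nonneg_left (pow_le_pow_right₀ hp1 (by omega)) hC0
      refine h7.trans ((add_le_add h6 h13).trans ?_)
      rw [← add_mul]
      apply mul_le_mul_of_nonneg_right _ hpe
      have : 0 ≤ 2 * C * M := by positivity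
      rw [hK']
      linarith
  have hcof : ∀ᶠ p : Nat.Primes in Filter.cofinite, ((M : ℕ) : ZMod (p : ℕ)) ≠ 0 := by
    have hfin : {p : Nat.Primes | ((M : ℕ) : ZMod (p : ℕ)) = 0}.Finite := by
      refine Set.Finite.of_injOn (f := fun p : Nat.Primes => (p : ℕ)) (t := (M.primeFactors : Set ℕ)) ?_
        ?_ (Finset.finite_toSet _)
      · intro p hp
        rw [Set.mem_ofPred_eq, ZMod.natCast_eq_zero_iff] at hp
        exact Nat.mem_primeFactors.2 ⟨p.2, hp, hM⟩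
      · intro p _ q _ h
        exact Subtype.ext h
    rw [Filter.eventually_cofinite]
    simpa only [ne_eq, not_not] using hfin
  have b : ∀ᶠ p : Nat.Primes in Filter.cofinite,
      ‖((Ac D (p, 0) / ((p : ℕ) : ℝ) ^ e : ℝ) : ℂ) + cmb L a p‖ ≤
        K' * ((p : ℕ) : ℝ) ^ (-(1 / 2) : ℝ) := by
    filter_upwards [hcof] with p hp
    have : Fact (p : ℕ).Prime := ⟨p.2⟩
    have hp0 : (0 : ℝ) < ((p : ℕ) : ℝ) := by exact_mod_cast p.2.pos
    have hF' : Fintype.card (ZMod (p : ℕ)) = (p : ℕ) ^ (0 + 1) := by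
      rw [ZMod.card, zero_add, pow_one]
    have hcard : (Nat.card (ZMod (p : ℕ)) : ℝ) = ((p : ℕ) : ℝ) := by
      rw [Nat.card_eq_fintype_card, ZMod.card]
    have h7 : Ac D (p, 0) = ∑ᶠ φ : R →+* ZMod (p : ℕ), tF E N φ := by
      let _ := D.fin (p, 0)
      exact Ac_zero E N p hF'
    have h1 := hT (ZMod (p : ℕ)) hp
    rw [hcard, ← h7] at h1
    rw [cmb_eq, ← Complex.ofReal_add, Complex.norm_real, Real.norm_eq_abs]
    have hpe : (0 : ℝ) < ((p : ℕ) : ℝ) ^ e := by positivity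
    have hs : 0 < √((p : ℕ) : ℝ) := Real.sqrt_pos.2 hp0
    have h3 : Ac D (p, 0) / ((p : ℕ) : ℝ) ^ e + cF L a (ZMod (p : ℕ)) =
        (Ac D (p, 0) + cF L a (ZMod (p : ℕ)) * ((p : ℕ) : ℝ) ^ e) / ((p : ℕ) : ℝ) ^ e := by
      field_simp
    have h4 : ((p : ℕ) : ℝ) ^ (-(1 / 2) : ℝ) = (√((p : ℕ) : ℝ))⁻¹ := by
      rw [Real.sqrt_eq_rpow, ← Real.rpow_neg hp0.le]
    rw [h3, h4, abs_div, abs_of_pos hpe, div_le_iff₀ hpe, ← div_eq_mul_inv]
    rw [div_mul_eq_mul_div, le_div_iff₀ hs]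
    refine h1.trans (mul_le_mul_of_nonneg_right ?_ hpe.le)
    have : 0 ≤ 2 * C * M := by positivity
    rw [hK']
    linarith
  obtain ⟨Φ, g1, g3, g4, g5⟩ := core2 D L a hr b0 b1 b
  refine ⟨Φ, ?_, g3, g4, g5⟩
  intro s hs
  have h6 : HasProd (fun y : {y : Pt R // N ∉ y.asIdeal} =>
    (1 - (D.ag y.1 : ℂ) * (qq pk y.1 : ℂ) ^ (-s) + (qq pk y.1 : ℂ) ^ (1 - 2 * s))⁻¹) (Φ s) :=
    g1 s hs
  have h7 : (fun y : {y : Pt R // N ∉ y.asIdeal} =>
    (1 - (D.ag y.1 : ℂ) * (qq pk y.1 : ℂ) ^ (-s) + (qq pk y.1 : ℂ) ^ (1 - 2 * s))⁻¹) =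
    (fun y : {y : Pt R // N ∉ y.asIdeal} =>
      (1 - (ay E y.1 : ℂ) * (qy y.1 : ℂ) ^ (-s) + (qy y.1 : ℂ) ^ (1 - 2 * s))⁻¹) := by
    funext y
    have hag : D.ag y.1 = ((ay E y.1 : ℤ) : ℝ) := by
      change agE E N y.1 = _
      rw [agE, if_pos y.2]
    rw [hag, qq_eq_qy, Complex.ofReal_intCast]
  rw [h7] at h6
  exact h6

end

end Pool.Agent.R410.BS
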