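import Pool.Agent.R410.LW.Bir

/-!
# The points of two models of a finitely generated field
-/

set_option autoImplicit false
set_option linter.all false

namespace Pool.Agent.R410.BS

open Pool.Agent.R410.LW

section
variable {A B : Type} [CommRing A] [IsDomain A] [CommRing B] [IsDomain B] [Algebra A B]

theorem bir_bij (hinj : Function.Injective (algebraMap A B)) {a : A} (ha : a ≠ 0)
    (h : ∀ b : B, ∃ (n : ℕ) (c : A), algebraMap A B a ^ n * b = algebraMap A B c) {c : A}
    (hc : a ∣ c) (k : Type) [Field k] :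
    Function.Bijective (fun φ : {φ : B →+* k // φ (algebraMap A B c) ≠ 0} =>
      (⟨φ.1.comp (algebraMap A B), φ.2⟩ : {ψ : A →+* k // ψ c ≠ 0})) := by
  classical
  have hac : ∀ ψ : A →+* k, ψ c ≠ 0 → ψ a ≠ 0 := by
    intro ψ hψ h0
    obtain ⟨b, rfl⟩ := hc
    rw [map_mul, h0, zero_mul] at hψ
    exact hψ rfl
  refine ⟨?_, ?_⟩
  · intro φ φ' hφ
    apply Subtype.ext
    refine RingHom.ext fun b => ?_
    have e : ∀ z : A, φ.1 (algebraMap A B z) = φ'.1 (algebraMap A B z) := fun z =>
      congrArg (fun w : {ψ : A →+* k // ψ c ≠ 0} => w.1 z) hφ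
    obtain ⟨n, z, hz⟩ := h b
    have h1 := congrArg φ.1 hz
    have h2 := congrArg φ'.1 hz
    rw [map_mul, map_pow] at h1 h2
    have h3 : φ.1 (algebraMap A B a) ≠ 0 := hac (φ.1.comp (algebraMap A B)) φ.2
    have h4 : φ.1 (algebraMap A B a) ^ n ≠ 0 := pow_ne_zero n h3
    apply mul_left_cancel₀ h4
    rw [h1, e, e, h2]
  · rintro ⟨ψ, hψ⟩
    let Ba := Localization.Away (algebraMap A B a)
    let _ : Algebra A Ba := ((algebraMap B Ba).comp (algebraMap A B)).toAlgebra
    have hBi : Function.Injective (algebraMap B Ba) :=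
      IsLocalization.injective Ba (powers_le_nonZeroDivisors_of_noZeroDivisors
        ((map_ne_zero_iff _ hinj).2 ha))
    have hloc : IsLocalization.Away a Ba := by
      refine { map_units := ?_, surj := ?_, exists_of_eq := ?_ }
      · rintro ⟨_, n, rfl⟩
        show IsUnit (algebraMap B Ba (algebraMap A B (a ^ n)))
        rw [map_pow, map_pow]
        exact (IsLocalization.Away.algebraMap_isUnit (algebraMap A B a)).pow n
      · intro z
        obtain ⟨⟨b, ⟨_, n, rfl⟩⟩, hb⟩ := IsLocalization.surj (Submonoid.powers (algebraMap A B a)) z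
        obtain ⟨m, x, hx⟩ := h b
        refine ⟨⟨x, ⟨a ^ (n + m), n + m, rfl⟩⟩, ?_⟩
        show z * algebraMap B Ba (algebraMap A B (a ^ (n + m))) = algebraMap B Ba (algebraMap A B x)
        rw [← hx, map_mul, ← hb, pow_add, map_mul, map_mul, map_pow, map_pow]
        simp only [map_pow]
        ring
      · intro x y hxy
        refine ⟨1, ?_⟩
        rw [hinj (hBi hxy)]
    have hu : IsUnit (ψ a) := isUnit_iff_ne_zero.2 (hac ψ hψ)
    have hl : ∀ x : A, IsLocalization.Away.lift (S := Ba) a hu (algebraMap B Ba (algebraMap A B x)) =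
        ψ x := fun x => IsLocalization.Away.lift_eq (S := Ba) a hu x
    refine ⟨⟨(IsLocalization.Away.lift (S := Ba) a hu).comp (algebraMap B Ba), ?_⟩, ?_⟩
    · rw [RingHom.comp_apply, hl]
      exact hψ
    · apply Subtype.ext
      exact RingHom.ext fun x => hl x

end

/-- **The points of two models correspond, outside proper closed subsets.** -/
theorem transfer_equiv {R B K : Type} [CommRing R] [IsDomain R] [CommRing B] [IsDomain B] [Field K]
    [Algebra R K] [IsFractionRing R K] [Algebra B K] [IsFractionRing B K] [Algebra.FiniteType ℤ R]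
    [Algebra.FiniteType ℤ B] {ι : Type} (v : ι → R) (v' : ι → B)
    (hv : ∀ i, algebraMap R K (v i) = algebraMap B K (v' i)) (r₀ : R) (hr₀ : r₀ ≠ 0)
    (b₀ : B) (hb₀ : b₀ ≠ 0) :
    ∃ (r : R) (b : B), r ≠ 0 ∧ b ≠ 0 ∧ r₀ ∣ r ∧ b₀ ∣ b ∧ ∀ (F : Type) [Field F],
      ∃ e : {φ : R →+* F // φ r ≠ 0} ≃ {φ : B →+* F // φ b ≠ 0},
        ∀ φ i, φ.1 (v i) = (e φ).1 (v' i) := by
  classical
  let fR : R →ₐ[ℤ] K := (algebraMap R K).toIntAlgHom
  let fB : B →ₐ[ℤ] K := (algebraMap B K).toIntAlgHom
  let C : Subalgebra ℤ K := fR.range ⊔ fB.range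
  have hRfg : fR.range.FG := by
    rw [← Algebra.map_top]
    exact ((Algebra.FiniteType.out : (⊤ : Subalgebra ℤ R).FG)).map fR
  have hBfg : fB.range.FG := by
    rw [← Algebra.map_top]
    exact ((Algebra.FiniteType.out : (⊤ : Subalgebra ℤ B).FG)).map fB
  have hCfg : C.FG := hRfg.sup hBfg
  have hCft : Algebra.FiniteType ℤ C := C.fg_iff_finiteType.1 hCfg
  let _ : Algebra R C := ((algebraMap R K).codRestrict C.toSubring fun x =>
    (le_sup_left : fR.range ≤ C) ⟨x, rfl⟩).toAlgebra
  let _ : Algebra B C := ((algebraMap B K).codRestrict C.toSubring fun x =>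
    (le_sup_right : fB.range ≤ C) ⟨x, rfl⟩).toAlgebra
  have hRC : ∀ x : R, ((algebraMap R C x : C) : K) = algebraMap R K x := fun x => rfl
  have hBC : ∀ x : B, ((algebraMap B C x : C) : K) = algebraMap B K x := fun x => rfl
  have iR : Function.Injective (algebraMap R C) := by
    intro x y h
    apply IsFractionRing.injective R K
    rw [← hRC, ← hRC, h]
  have iB : Function.Injective (algebraMap B C) := by
    intro x y h
    apply IsFractionRing.injective B K
    rw [← hBC, ← hBC, h]
  have : Algebra.FiniteType R C := Algebra.FiniteType.of_restrictScalars_finiteType ℤ R C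
  have : Algebra.FiniteType B C := Algebra.FiniteType.of_restrictScalars_finiteType ℤ B C
  obtain ⟨a, ha0, ha⟩ := pow_den (A := R) (B := C) fun c => by
    obtain ⟨x, y, hy, hxy⟩ := IsFractionRing.div_surjective (A := R) (c : K)
    have hy0 : y ≠ 0 := nonZeroDivisors.ne_zero hy
    refine ⟨y, hy0, x, ?_⟩
    apply Subtype.ext
    show ((algebraMap R C y : C) : K) * (c : K) = _
    rw [hRC, hRC, ← hxy, mul_div_cancel₀]
    exact (map_ne_zero_iff _ (IsFractionRing.injective R K)).2 hy0
  obtain ⟨a', ha0', ha'⟩ := pow_den (A := B) (B := C) fun c => by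
    obtain ⟨x, y, hy, hxy⟩ := IsFractionRing.div_surjective (A := B) (c : K)
    have hy0 : y ≠ 0 := nonZeroDivisors.ne_zero hy
    refine ⟨y, hy0, x, ?_⟩
    apply Subtype.ext
    show ((algebraMap B C y : C) : K) * (c : K) = _
    rw [hBC, hBC, ← hxy, mul_div_cancel₀]
    exact (map_ne_zero_iff _ (IsFractionRing.injective B K)).2 hy0
  obtain ⟨n, x, hx⟩ := ha (algebraMap B C (a' * b₀))
  obtain ⟨m, y, hy⟩ := ha' (algebraMap R C (a * r₀))
  have haC : algebraMap R C a ≠ 0 := (map_ne_zero_iff _ iR).2 ha0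
  have haC' : algebraMap B C a' ≠ 0 := (map_ne_zero_iff _ iB).2 ha0'
  have hrC : algebraMap R C r₀ ≠ 0 := (map_ne_zero_iff _ iR).2 hr₀
  have hbC : algebraMap B C b₀ ≠ 0 := (map_ne_zero_iff _ iB).2 hb₀
  have hx0 : x ≠ 0 := by
    rintro rfl
    rw [map_zero, map_mul] at hx
    exact (mul_ne_zero (pow_ne_zero n haC) (mul_ne_zero haC' hbC)) hx
  have hy0 : y ≠ 0 := by
    rintro rfl
    rw [map_zero, map_mul] at hy
    exact (mul_ne_zero (pow_ne_zero m haC') (mul_ne_zero haC hrC)) hy
  refine ⟨a * r₀ * x, a' * b₀ * y, mul_ne_zero (mul_ne_zero ha0 hr₀) hx0,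
    mul_ne_zero (mul_ne_zero ha0' hb₀) hy0, ⟨a * x, by ring⟩, ⟨a' * y, by ring⟩, ?_⟩
  intro F _
  have b1 := bir_bij iR ha0 ha (c := a * r₀ * x) ⟨r₀ * x, by ring⟩ F
  have b2 := bir_bij iB ha0' ha' (c := a' * b₀ * y) ⟨b₀ * y, by ring⟩ F
  have hiff : ∀ φ : C →+* F, φ (algebraMap R C (a * r₀ * x)) ≠ 0 ↔
      φ (algebraMap B C (a' * b₀ * y)) ≠ 0 := by
    intro φ
    have e1 : φ (algebraMap R C x) = φ (algebraMap R C a) ^ n *
        (φ (algebraMap B C a') * φ (algebraMap B C b₀)) := by
      rw [← hx, map_mul, map_pow, map_mul, map_mul]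
    have e2 : φ (algebraMap B C y) = φ (algebraMap B C a') ^ m *
        (φ (algebraMap R C a) * φ (algebraMap R C r₀)) := by
      rw [← hy, map_mul, map_pow, map_mul, map_mul]
    rw [map_mul, map_mul, map_mul, map_mul, e1, map_mul, map_mul, map_mul, map_mul, e2]
    constructor
    · intro h
      have h1 := left_ne_zero_of_mul h
      have h2 := right_ne_zero_of_mul h
      have h3 := left_ne_zero_of_mul h1
      have h4 := right_ne_zero_of_mul h1
      have h5 := right_ne_zero_of_mul h2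
      have h6 := left_ne_zero_of_mul h5
      have h7 := right_ne_zero_of_mul h5
      exact mul_ne_zero (mul_ne_zero h6 h7) (mul_ne_zero (pow_ne_zero m h6) (mul_ne_zero h3 h4))
    · intro h
      have h1 := left_ne_zero_of_mul h
      have h2 := right_ne_zero_of_mul h
      have h3 := left_ne_zero_of_mul h1
      have h4 := right_ne_zero_of_mul h1
      have h5 := right_ne_zero_of_mul h2
      have h6 := left_ne_zero_of_mul h5
      have h7 := right_ne_zero_of_mul h5
      exact mul_ne_zero (mul_ne_zero h6 h7) (mul_ne_zero (pow_ne_zero n h6) (mul_ne_zero h3 h4))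
  let e1 := (Equiv.ofBijective _ b1).symm
  let e2 : {φ : C →+* F // φ (algebraMap R C (a * r₀ * x)) ≠ 0} ≃
      {φ : C →+* F // φ (algebraMap B C (a' * b₀ * y)) ≠ 0} := Equiv.subtypeEquivRight hiff
  let e3 := Equiv.ofBijective _ b2
  refine ⟨(e1.trans e2).trans e3, ?_⟩
  intro φ i
  have h1 : (Equiv.ofBijective _ b1) (e1 φ) = φ := (Equiv.ofBijective _ b1).apply_symm_apply φ
  have h2 : φ.1 (v i) = (e1 φ).1 (algebraMap R C (v i)) := by
    conv_lhs => rw [← h1]
    rfl
  have h3 : algebraMap R C (v i) = algebraMap B C (v' i) := Subtype.ext (hv i)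
  rw [h2, h3]
  rfl

end Pool.Agent.R410.BS
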