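import Pool.Agent.R410.BS.MS
import Pool.Agent.R410.BS.Tr
import Pool.Agent.R410.BS.Arr2

/-!
# The Euler product over an arbitrary model
-/

set_option autoImplicit false
set_option linter.all false

open Polynomial NumberField

namespace Pool.Agent.R410.BS

open Pool.Agent.TH958.An (trE tF ay qy Pt)

section
variable {R : Type} [CommRing R]

theorem tF_le (W : WeierstrassCurve R) (h1 : W.a₁ = 0) (h3 : W.a₃ = 0) {F : Type} [Field F]
    [Fintype F] (φ : R →+* F) (hφ : φ W.Δ ≠ 0) : |(trE (W.map φ) : ℝ)| ≤ 2 * √(Fintype.card F) := by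
  classical
  have hF : ringChar F ≠ 2 := by
    intro h
    apply hφ
    have h2 : (2 : F) = 0 := by
      have := ringChar.Nat.cast_ringChar (R := F)
      rw [h] at this
      exact_mod_cast this
    have h4 : W.Δ = 2 * (8 * (-W.a₂ ^ 2 * (4 * W.a₂ * W.a₆ - W.a₄ ^ 2) - 4 * W.a₄ ^ 3 -
      27 * W.a₆ ^ 2 + 18 * W.a₂ * W.a₄ * W.a₆)) := by
      unfold WeierstrassCurve.Δ WeierstrassCurve.b₂ WeierstrassCurve.b₄ WeierstrassCurve.b₆
        WeierstrassCurve.b₈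
      rw [h1, h3]
      ring
    rw [h4, map_mul, map_ofNat, h2, zero_mul]
  refine trE_weil hF (W.map φ) ?_ ?_ ?_
  · rw [WeierstrassCurve.map_a₁, h1, map_zero]
  · rw [WeierstrassCurve.map_a₃, h3, map_zero]
  · rw [WeierstrassCurve.map_Δ]
    exact hφ

theorem two_dvd (W : WeierstrassCurve R) (h1 : W.a₁ = 0) (h3 : W.a₃ = 0) : (2 : R) ∣ W.Δ := by
  refine ⟨8 * (-W.a₂ ^ 2 * (4 * W.a₂ * W.a₆ - W.a₄ ^ 2) - 4 * W.a₄ ^ 3 -
      27 * W.a₆ ^ 2 + 18 * W.a₂ * W.a₄ * W.a₆), ?_⟩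
  unfold WeierstrassCurve.Δ WeierstrassCurve.b₂ WeierstrassCurve.b₄ WeierstrassCurve.b₆
    WeierstrassCurve.b₈
  rw [h1, h3]
  ring

theorem tF_abs (W : WeierstrassCurve R) (h1 : W.a₁ = 0) (h3 : W.a₃ = 0) {F : Type} [Field F]
    [Fintype F] (φ : R →+* F) : |tF W W.Δ φ| ≤ 2 * √(Fintype.card F) := by
  classical
  unfold tF
  by_cases h : φ W.Δ = 0
  · rw [if_neg (not_not.2 h), abs_zero]
    positivity
  · rw [if_pos h]
    exact tF_le W h1 h3 φ h

open Classical in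
/-- the part of the sum over a closed subset -/
theorem part_le (W : WeierstrassCurve R) (h1 : W.a₁ = 0) (h3 : W.a₃ = 0) (u : R) {F : Type} [Field F]
    [Fintype F] [Fintype (R →+* F)] :
    |∑ φ : R →+* F, tF W W.Δ φ - ∑ φ : {φ : R →+* F // φ u ≠ 0}, tF W W.Δ φ.1| ≤
      Nat.card {φ : R →+* F // φ u = 0} * (2 * √(Fintype.card F)) := by
  classical
  have h4 := Fintype.sum_subtype_add_sum_subtype (fun φ : R →+* F => φ u ≠ 0) (tF W W.Δ)
  have h5 : ∑ φ : R →+* F, tF W W.Δ φ - ∑ φ : {φ : R →+* F // φ u ≠ 0}, tF W W.Δ φ.1 =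
      ∑ φ : {φ : R →+* F // ¬ φ u ≠ 0}, tF W W.Δ φ.1 := by
    rw [← h4]
    ring
  rw [h5]
  refine (Finset.abs_sum_le_sum_abs _ _).trans ((Finset.sum_le_card_nsmul _ _ _ fun φ _ =>
    tF_abs W h1 h3 φ.1).trans (le_of_eq ?_))
  rw [nsmul_eq_mul, Finset.card_univ, ← Nat.card_eq_fintype_card]
  congr 2
  exact Nat.card_congr (Equiv.subtypeEquivRight fun φ => not_not)

end

/-- **The Euler product over an arbitrary model.** -/
theorem any_model {A : Type} [CommRing A] [IsDomain A] [Algebra.FiniteType ℤ A] {K : Type} [Field K]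
    [CharZero K] {r : ℕ} (f : Fin r → A[X]) (f₀ : A[X]) [IsDomain (BB f)] [Algebra (BB f) K]
    [IsFractionRing (BB f) K] {e : ℕ} (he : Algebra.trdeg ℚ K ≤ e) (he1 : 1 ≤ e)
    {κ : Type} [Fintype κ] (L : κ → Type) [∀ j, Field (L j)] [∀ j, NumberField (L j)]
    (a : κ → ℝ) {m : ℤ} (hm : ∑ j, a j = m)
    (hsum : ∃ (C : ℝ) (N : ℕ), 0 ≤ C ∧ N ≠ 0 ∧ ∀ (F : Type) [Field F] [Fintype F]
      [Fintype (BB f →+* F)], ((N : ℕ) : F) ≠ 0 →
        |∑ φ : BB f →+* F, tF (EB f f₀) (EB f f₀).Δ φ + cF L a F * (Nat.card F : ℝ) ^ e| *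
          √(Nat.card F : ℝ) ≤ C * (Nat.card F : ℝ) ^ e)
    (R : Type) [CommRing R] [IsDomain R] [Algebra.FiniteType ℤ R] [Algebra R K] [IsFractionRing R K]
    (W : WeierstrassCurve R)
    (hW : W.map (algebraMap R K) = (EB f f₀).map (algebraMap (BB f) K)) :
    ∃ Φ : ℂ → ℂ,
      (∀ s : ℂ, (e : ℝ) + 3 / 2 < s.re → HasProd (fun y : {y : Pt R // W.Δ ∉ y.asIdeal} =>
        (1 - (ay W y.1 : ℂ) * (qy y.1 : ℂ) ^ (-s) + (qy y.1 : ℂ) ^ (1 - 2 * s))⁻¹) (Φ s)) ∧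
      DifferentiableOn ℂ Φ {s : ℂ | (e : ℝ) + 1 < s.re} ∧
      MeromorphicAt Φ ((e : ℂ) + 1) ∧ meromorphicOrderAt Φ ((e : ℂ) + 1) = m := by
  classical
  have hRi : Function.Injective (algebraMap R K) := IsFractionRing.injective R K
  have hBi : Function.Injective (algebraMap (BB f) K) := IsFractionRing.injective (BB f) K
  have hE1 : (EB f f₀).a₁ = 0 := rfl
  have hE3 : (EB f f₀).a₃ = 0 := rfl
  have h1 : W.a₁ = 0 := by
    apply hRi
    have h := congrArg WeierstrassCurve.a₁ hW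
    rw [WeierstrassCurve.map_a₁, WeierstrassCurve.map_a₁, hE1, map_zero] at h
    rw [h, map_zero]
  have h3 : W.a₃ = 0 := by
    apply hRi
    have h := congrArg WeierstrassCurve.a₃ hW
    rw [WeierstrassCurve.map_a₃, WeierstrassCurve.map_a₃, hE3, map_zero] at h
    rw [h, map_zero]
  let v : Fin 5 → R := ![W.a₁, W.a₂, W.a₃, W.a₄, W.a₆]
  let v' : Fin 5 → BB f := ![(EB f f₀).a₁, (EB f f₀).a₂, (EB f f₀).a₃, (EB f f₀).a₄, (EB f f₀).a₆]
  have hv : ∀ i, algebraMap R K (v i) = algebraMap (BB f) K (v' i) := by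
    intro i
    fin_cases i
    · exact congrArg WeierstrassCurve.a₁ hW
    · exact congrArg WeierstrassCurve.a₂ hW
    · exact congrArg WeierstrassCurve.a₃ hW
    · exact congrArg WeierstrassCurve.a₄ hW
    · exact congrArg WeierstrassCurve.a₆ hW
  obtain ⟨u, b, hu0, hb0, -, -, hbij⟩ := transfer_equiv v v' hv 1 one_ne_zero 1 one_ne_zero
  obtain ⟨C1, N1, hC1, hN1, g1⟩ := good_le (R := R) (K := K) hRi he hu0
  obtain ⟨C2, N2, hC2, hN2, g2⟩ := good_le (R := BB f) (K := K) hBi he hb0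
  obtain ⟨C3, hC3, g3⟩ := hom_le (R := R) (K := K) hRi he
  obtain ⟨C4, N4, hC4, hN4, g4⟩ := hsum
  refine arith2 L a W W.Δ (two_dvd W h1 h3) e he1 (fun F _ _ φ hφ => tF_le W h1 h3 φ hφ) C3 hC3
    (fun F _ _ => g3 F) hm (N1 * N2 * N4) (mul_ne_zero (mul_ne_zero hN1 hN2) hN4)
    (2 * C1 + 2 * C2 + C4) (by positivity) ?_
  intro F _ _ hN
  rw [Nat.cast_mul, Nat.cast_mul] at hN
  have hN1F := left_ne_zero_of_mul (left_ne_zero_of_mul hN)
  have hN2F := right_ne_zero_of_mul (left_ne_zero_of_mul hN)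
  have hN4F := right_ne_zero_of_mul hN
  let _ : Fintype (R →+* F) := Fintype.ofFinite _
  let _ : Fintype (BB f →+* F) := Fintype.ofFinite _
  rw [finsum_eq_sum_of_fintype]
  obtain ⟨E, hE⟩ := hbij F
  have hmap : ∀ φ : {φ : R →+* F // φ u ≠ 0}, W.map φ.1 = (EB f f₀).map (E φ).1 := by
    intro φ
    apply WeierstrassCurve.ext
    · exact hE φ 0
    · exact hE φ 1
    · exact hE φ 2
    · exact hE φ 3
    · exact hE φ 4
  have htF : ∀ φ : {φ : R →+* F // φ u ≠ 0}, tF W W.Δ φ.1 = tF (EB f f₀) (EB f f₀).Δ (E φ).1 := by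
    intro φ
    unfold tF
    rw [← WeierstrassCurve.map_Δ, ← WeierstrassCurve.map_Δ, hmap φ]
  have hS : ∑ φ : {φ : R →+* F // φ u ≠ 0}, tF W W.Δ φ.1 =
      ∑ φ : {φ : BB f →+* F // φ b ≠ 0}, tF (EB f f₀) (EB f f₀).Δ φ.1 :=
    Fintype.sum_equiv E _ _ htF
  have p1 := part_le W h1 h3 u (F := F)
  have p2 := part_le (EB f f₀) hE1 hE3 b (F := F)
  have p4 := g4 F hN4F
  have c1 := (g1 F hN1F).2
  have c2 := (g2 F hN2F).2
  have hq : (Nat.card F : ℝ) = (Fintype.card F : ℝ) := by rw [Nat.card_eq_fintype_card]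
  rw [hq] at p4 c1 c2 ⊢
  set q : ℝ := (Fintype.card F : ℝ) with hqdef
  have hq0 : 0 ≤ q := Nat.cast_nonneg _
  have hs0 : 0 ≤ √q := Real.sqrt_nonneg _
  have hss : √q * √q = q := Real.mul_self_sqrt hq0
  set SR := ∑ φ : R →+* F, tF W W.Δ φ
  set SB := ∑ φ : BB f →+* F, tF (EB f f₀) (EB f f₀).Δ φ
  set SR' := ∑ φ : {φ : R →+* F // φ u ≠ 0}, tF W W.Δ φ.1
  set SB' := ∑ φ : {φ : BB f →+* F // φ b ≠ 0}, tF (EB f f₀) (EB f f₀).Δ φ.1
  set n1 : ℝ := ((Nat.card {φ : R →+* F // φ u = 0} : ℕ) : ℝ)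
  set n2 : ℝ := ((Nat.card {φ : BB f →+* F // φ b = 0} : ℕ) : ℝ)
  have e1 : SR + cF L a F * q ^ e = (SR - SR') - (SB - SB') + (SB + cF L a F * q ^ e) := by
    rw [hS]
    ring
  rw [e1]
  calc |(SR - SR') - (SB - SB') + (SB + cF L a F * q ^ e)| * √q ≤
      (|SR - SR'| + |SB - SB'| + |SB + cF L a F * q ^ e|) * √q := by
        refine mul_le_mul_of_nonneg_right ((abs_add_le _ _).trans ?_) hs0
        exact add_le_add (abs_sub _ _) le_rfl
    _ = |SR - SR'| * √q + |SB - SB'| * √q + |SB + cF L a F * q ^ e| * √q := by ring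
    _ ≤ n1 * (2 * √q) * √q + n2 * (2 * √q) * √q + C4 * q ^ e := by
        refine add_le_add (add_le_add ?_ ?_) p4
        · exact mul_le_mul_of_nonneg_right p1 hs0
        · exact mul_le_mul_of_nonneg_right p2 hs0
    _ = 2 * (n1 * (√q * √q)) + 2 * (n2 * (√q * √q)) + C4 * q ^ e := by ring
    _ ≤ (2 * C1 + 2 * C2 + C4) * q ^ e := by
        rw [hss]
        nlinarith

end Pool.Agent.R410.BS
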