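import Pool.Agent.TH958.An.Second
import Pool.Agent.H341R2.WeilSharp

/-!
# Moments of the traces of the curves `y² = c(x) + w` over `w`
-/

set_option autoImplicit false
set_option linter.all false

namespace Pool.Agent.R410.BS

open Finset
open Pool.Agent.TH958.An (sum_pair)
open Pool.Agent.H341R2 (card_sqrt)

section
variable {F : Type} [Field F] [Fintype F] [DecidableEq F]

/-- the character sum of `c(x) + w` -/
noncomputable def Sw (c : Polynomial F) (w : F) : ℤ := ∑ x : F, quadraticChar F (c.eval x + w)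

/-- the number of the points of `c(x) = c'(z)` -/
noncomputable def NN (c c' : Polynomial F) : ℕ := (univ.filter fun z : F × F => c.eval z.1 = c'.eval z.2).card

theorem sum_shift (hF : ringChar F ≠ 2) (a : F) : ∑ w : F, quadraticChar F (a + w) = 0 := by
  have h := Pool.Agent.H126G.sum_char_linear hF (1 : F) a one_ne_zero
  rw [← h]
  refine sum_congr rfl fun b _ => ?_
  congr 1
  ring

theorem sum_Sw (hF : ringChar F ≠ 2) (c : Polynomial F) : ∑ w : F, Sw c w = 0 := by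
  simp only [Sw]
  rw [sum_comm]
  exact sum_eq_zero fun x _ => sum_shift hF _

theorem sum_SwSw (hF : ringChar F ≠ 2) (c c' : Polynomial F) : ∑ w : F, Sw c w * Sw c' w =
    (Fintype.card F : ℤ) * NN c c' - (Fintype.card F : ℤ) ^ 2 := by
  have h1 : ∀ w : F, Sw c w * Sw c' w = ∑ z : F × F,
      quadraticChar F (c.eval z.1 + w) * quadraticChar F (c'.eval z.2 + w) := by
    intro w
    rw [Sw, Sw, sum_mul_sum, Fintype.sum_prod_type]
  rw [sum_congr rfl fun w _ => h1 w, sum_comm, sum_congr rfl fun z _ => sum_pair hF _ _,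
    sum_sub_distrib, ← sum_filter, sum_const, sum_const, nsmul_eq_mul, nsmul_eq_mul, NN, card_univ,
    Fintype.card_prod]
  push_cast
  ring

theorem Sw_bound (hF : ringChar F ≠ 2) {c : Polynomial F} (hc : c.Monic) (hodd : Odd c.natDegree)
    (w : F) : |(Sw c w : ℝ)| ≤ c.natDegree * √(Fintype.card F) := by
  classical
  have hpos : 0 < c.natDegree := hodd.pos
  have h1 : (Polynomial.C w).natDegree < c.natDegree := by rw [Polynomial.natDegree_C]; exact hpos
  have hm : (c + Polynomial.C w).Monic := hc.add_of_left (Polynomial.degree_lt_degree h1)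
  have hd : (c + Polynomial.C w).natDegree = c.natDegree :=
    Polynomial.natDegree_add_eq_left_of_natDegree_lt h1
  have h2 := Pool.Agent.H341R2.Sharp.weil_sharp_monic hF hm (by omega) (by
    intro a h h0
    have hodd' : Odd (Polynomial.C a * h ^ 2).natDegree := by rw [← h0, hd]; exact hodd
    have ha : a ≠ 0 := by
      rintro rfl
      simp at hodd'
    rw [Polynomial.natDegree_C_mul ha, Polynomial.natDegree_pow] at hodd'
    exact (Nat.not_odd_iff_even.2 (even_two_mul _)) hodd')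
  rw [hd] at h2
  have h3 : (Sw c w : ℝ) = ∑ x : F, (quadraticChar F ((c + Polynomial.C w).eval x) : ℝ) := by
    rw [Sw]
    push_cast
    refine sum_congr rfl fun x _ => ?_
    rw [Polynomial.eval_add, Polynomial.eval_C]
  rw [h3]
  refine h2.trans (mul_le_mul_of_nonneg_right (by linarith) (Real.sqrt_nonneg _))

end

/-- the expansion of the product up to the second order -/
theorem prod_expand {ι : Type} [DecidableEq ι] (B : ℝ) (hB : 0 ≤ B) (S : Finset ι) : ∃ C : ℝ, 0 ≤ C ∧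
    ∀ (q : ℝ) (s : ι → ℝ), 1 ≤ q → (∀ i, |s i| ≤ B * √q) →
      |q * ∏ i ∈ S, (q + s i) - q ^ (S.card + 1) - q ^ S.card * ∑ i ∈ S, s i| ≤ C * q ^ S.card := by
  induction S using Finset.induction_on with
  | empty =>
    refine ⟨0, le_rfl, fun q s _ _ => ?_⟩
    simp
  | insert a S ha ih =>
    obtain ⟨C, hC, h⟩ := ih
    refine ⟨(1 + B) * C + B * (S.card * B), by positivity, fun q s hq hs => ?_⟩
    have h1 := h q s hq hs
    have hq0 : 0 ≤ q := by linarith
    have hsq0 : 0 ≤ √q := Real.sqrt_nonneg q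
    have hss : √q * √q = q := Real.mul_self_sqrt hq0
    have hsqle : √q ≤ q := by
      rw [Real.sqrt_le_left hq0]
      nlinarith
    rw [prod_insert ha, sum_insert ha, card_insert_of_notMem ha]
    set D := q * ∏ i ∈ S, (q + s i) - q ^ (S.card + 1) - q ^ S.card * ∑ i ∈ S, s i with hD
    have e : q * ((q + s a) * ∏ i ∈ S, (q + s i)) - q ^ (S.card + 1 + 1) -
        q ^ (S.card + 1) * (s a + ∑ i ∈ S, s i) = (q + s a) * D + s a * (q ^ S.card * ∑ i ∈ S, s i) := by
      rw [hD]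
      ring
    rw [e]
    have h2 : |q + s a| ≤ (1 + B) * q := by
      refine (abs_add_le _ _).trans ?_
      rw [abs_of_nonneg hq0]
      have := hs a
      nlinarith
    have h3 : |∑ i ∈ S, s i| ≤ S.card * (B * √q) := by
      refine (abs_sum_le_sum_abs _ _).trans ((sum_le_card_nsmul _ _ _ fun i _ => hs i).trans ?_)
      rw [nsmul_eq_mul]
    have hqS : 0 ≤ q ^ S.card := pow_nonneg hq0 _
    calc |(q + s a) * D + s a * (q ^ S.card * ∑ i ∈ S, s i)| ≤
        |q + s a| * |D| + |s a| * (q ^ S.card * |∑ i ∈ S, s i|) := by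
          refine (abs_add_le _ _).trans (le_of_eq ?_)
          rw [abs_mul, abs_mul, abs_mul, abs_of_nonneg hqS]
      _ ≤ ((1 + B) * q) * (C * q ^ S.card) + (B * √q) * (q ^ S.card * (S.card * (B * √q))) := by
          refine add_le_add (mul_le_mul h2 h1 (abs_nonneg _) (by positivity)) ?_
          refine mul_le_mul (hs a) (mul_le_mul_of_nonneg_left h3 hqS) (by positivity) (by positivity)
      _ = (1 + B) * C * (q * q ^ S.card) + B * (S.card * B) * ((√q * √q) * q ^ S.card) := by ring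
      _ = ((1 + B) * C + B * (S.card * B)) * q ^ (S.card + 1) := by
          rw [hss]
          ring

section

/-- **The sum over the parameter.** -/
theorem fib_sum (r : ℕ) (B : ℝ) (hB : 0 ≤ B) (b : ℕ) : ∃ C : ℝ, 0 ≤ C ∧
    ∀ (F : Type) [Field F] [Fintype F] [DecidableEq F], ringChar F ≠ 2 → ∀ (c₀ : Polynomial F)
      (c : Fin r → Polynomial F), c₀.Monic → Odd c₀.natDegree → (c₀.natDegree : ℝ) ≤ B →
      (∀ i, (c i).Monic ∧ Odd (c i).natDegree ∧ ((c i).natDegree : ℝ) ≤ B) →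
      ∀ bad : Finset F, bad.card ≤ b →
      |∑ w ∈ univ.filter (fun w => w ∉ bad), (-(Sw c₀ w : ℝ)) * ∏ i, ((Fintype.card F : ℝ) + Sw (c i) w) +
        (Fintype.card F : ℝ) ^ r * ∑ i, ((NN c₀ (c i) : ℝ) - Fintype.card F)| ≤
      C * ((Fintype.card F : ℝ) ^ r * √(Fintype.card F)) := by
  obtain ⟨C, hC, hexp⟩ := prod_expand B hB (univ : Finset (Fin r))
  refine ⟨B * C + b * (B * (1 + B) ^ r), by positivity, ?_⟩
  intro F _ _ _ hF c₀ c hc₀ ho₀ hd₀ hc bad hbad
  set q : ℝ := (Fintype.card F : ℝ) with hq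
  have hq1 : 1 ≤ q := by rw [hq]; exact_mod_cast Fintype.card_pos
  have hq0 : 0 < q := by linarith
  have hsq0 : 0 ≤ √q := Real.sqrt_nonneg q
  have hsqle : √q ≤ q := by
    rw [Real.sqrt_le_left hq0.le]
    nlinarith
  have hs0 : ∀ w, |(Sw c₀ w : ℝ)| ≤ B * √q := fun w =>
    (Sw_bound hF hc₀ ho₀ w).trans (mul_le_mul_of_nonneg_right hd₀ hsq0)
  have hs : ∀ w i, |(Sw (c i) w : ℝ)| ≤ B * √q := fun w i =>
    (Sw_bound hF (hc i).1 (hc i).2.1 w).trans (mul_le_mul_of_nonneg_right (hc i).2.2 hsq0)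
  have hE : ∀ w, |q * ∏ i, (q + (Sw (c i) w : ℝ)) - q ^ (r + 1) - q ^ r * ∑ i, (Sw (c i) w : ℝ)| ≤
      C * q ^ r := by
    intro w
    have h := hexp q (fun i => (Sw (c i) w : ℝ)) hq1 (hs w)
    rwa [card_univ, Fintype.card_fin] at h
  have hS1 : ∑ w : F, (Sw c₀ w : ℝ) = 0 := by
    have := congrArg (fun z : ℤ => (z : ℝ)) (sum_Sw hF c₀)
    push_cast at this
    exact this
  have hS2 : ∀ i, ∑ w : F, (Sw c₀ w : ℝ) * (Sw (c i) w : ℝ) = q * NN c₀ (c i) - q ^ 2 := by
    intro i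
    have := congrArg (fun z : ℤ => (z : ℝ)) (sum_SwSw hF c₀ (c i))
    push_cast at this
    exact this
  -- all parameters
  have hall : |q * (∑ w : F, (-(Sw c₀ w : ℝ)) * ∏ i, (q + Sw (c i) w) +
      q ^ r * ∑ i, ((NN c₀ (c i) : ℝ) - q))| ≤ B * C * (q * (q ^ r * √q)) := by
    have e : q * (∑ w : F, (-(Sw c₀ w : ℝ)) * ∏ i, (q + Sw (c i) w) +
        q ^ r * ∑ i, ((NN c₀ (c i) : ℝ) - q)) =
        ∑ w : F, (-(Sw c₀ w : ℝ)) * (q * ∏ i, (q + (Sw (c i) w : ℝ)) - q ^ (r + 1) -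
          q ^ r * ∑ i, (Sw (c i) w : ℝ)) := by
      have e1 : ∑ w : F, (-(Sw c₀ w : ℝ)) * (q * ∏ i, (q + (Sw (c i) w : ℝ)) - q ^ (r + 1) -
          q ^ r * ∑ i, (Sw (c i) w : ℝ)) = q * ∑ w : F, (-(Sw c₀ w : ℝ)) * ∏ i, (q + (Sw (c i) w : ℝ)) +
          q ^ (r + 1) * ∑ w : F, (Sw c₀ w : ℝ) +
          q ^ r * ∑ i, ∑ w : F, (Sw c₀ w : ℝ) * (Sw (c i) w : ℝ) := by
        rw [sum_comm, mul_sum, mul_sum, mul_sum, ← sum_add_distrib, ← sum_add_distrib]
        refine sum_congr rfl fun w _ => ?_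
        rw [← mul_sum]
        ring
      have e2 : ∑ i, ∑ w : F, (Sw c₀ w : ℝ) * (Sw (c i) w : ℝ) =
          q * ∑ i, ((NN c₀ (c i) : ℝ) - q) := by
        rw [Finset.mul_sum]
        refine sum_congr rfl fun i _ => ?_
        rw [hS2]
        ring
      rw [e1, hS1, e2]
      ring
    rw [e]
    refine (abs_sum_le_sum_abs _ _).trans ?_
    have h1 : ∀ w ∈ (univ : Finset F), |(-(Sw c₀ w : ℝ)) * (q * ∏ i, (q + (Sw (c i) w : ℝ)) -
        q ^ (r + 1) - q ^ r * ∑ i, (Sw (c i) w : ℝ))| ≤ (B * √q) * (C * q ^ r) := by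
      intro w _
      rw [abs_mul, abs_neg]
      exact mul_le_mul (hs0 w) (hE w) (abs_nonneg _) (by positivity)
    refine (sum_le_card_nsmul _ _ _ h1).trans ?_
    rw [nsmul_eq_mul, card_univ, ← hq]
    exact le_of_eq (by ring)
  rw [abs_mul, abs_of_nonneg hq0.le, mul_left_comm (B * C) q] at hall
  have hall' := le_of_mul_le_mul_left hall hq0
  -- the bad parameters
  have hbadsum : |∑ w ∈ bad, (-(Sw c₀ w : ℝ)) * ∏ i, (q + (Sw (c i) w : ℝ))| ≤
      b * (B * (1 + B) ^ r) * (q ^ r * √q) := by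
    have h1 : ∀ w ∈ bad, |(-(Sw c₀ w : ℝ)) * ∏ i, (q + (Sw (c i) w : ℝ))| ≤
        (B * √q) * ((1 + B) * q) ^ r := by
      intro w _
      rw [abs_mul, abs_neg]
      refine mul_le_mul (hs0 w) ?_ (abs_nonneg _) (by positivity)
      rw [abs_prod]
      have h2 : ∀ i ∈ (univ : Finset (Fin r)), |q + (Sw (c i) w : ℝ)| ≤ (1 + B) * q := by
        intro i _
        refine (abs_add_le _ _).trans ?_
        rw [abs_of_nonneg hq0.le]
        have := hs w i
        nlinarith
      refine (prod_le_prod (fun i _ => abs_nonneg _) h2).trans ?_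
      rw [prod_const, card_univ, Fintype.card_fin]
    refine (abs_sum_le_sum_abs _ _).trans ((sum_le_card_nsmul _ _ _ h1).trans ?_)
    rw [nsmul_eq_mul]
    have h3 : (bad.card : ℝ) ≤ b := by exact_mod_cast hbad
    calc (bad.card : ℝ) * ((B * √q) * ((1 + B) * q) ^ r) ≤ b * ((B * √q) * ((1 + B) * q) ^ r) :=
          mul_le_mul_of_nonneg_right h3 (by positivity)
      _ = _ := by
          rw [mul_pow]
          ring
  have hsplit : ∑ w : F, (-(Sw c₀ w : ℝ)) * ∏ i, (q + (Sw (c i) w : ℝ)) =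
      ∑ w ∈ univ.filter (fun w => w ∉ bad), (-(Sw c₀ w : ℝ)) * ∏ i, (q + (Sw (c i) w : ℝ)) +
      ∑ w ∈ bad, (-(Sw c₀ w : ℝ)) * ∏ i, (q + (Sw (c i) w : ℝ)) := by
    have h1 : univ.filter (fun w => w ∉ bad) = univ \ bad := by
      ext w
      simp
    rw [h1, sum_sdiff (subset_univ bad)]
  have e : ∑ w ∈ univ.filter (fun w => w ∉ bad), (-(Sw c₀ w : ℝ)) * ∏ i, (q + (Sw (c i) w : ℝ)) +
      q ^ r * ∑ i, ((NN c₀ (c i) : ℝ) - q) =
      (∑ w : F, (-(Sw c₀ w : ℝ)) * ∏ i, (q + (Sw (c i) w : ℝ)) +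
        q ^ r * ∑ i, ((NN c₀ (c i) : ℝ) - q)) -
      ∑ w ∈ bad, (-(Sw c₀ w : ℝ)) * ∏ i, (q + (Sw (c i) w : ℝ)) := by
    rw [hsplit]
    ring
  rw [e, add_mul]
  exact (abs_sub _ _).trans (add_le_add hall' hbadsum)

end

end Pool.Agent.R410.BS
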