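import Pool.Agent.R410.BS.Core2
import Pool.Agent.R410.BS.Sum
import Pool.Agent.TH958.An.ArithMain
import Pool.Agent.W385.CP.Poly

/-!
# The Euler product of an elliptic curve over a model, from the sums of the traces
-/

set_option autoImplicit false
set_option linter.all false

open NumberField

namespace Pool.Agent.R410.BS

open Pool.Agent.TH958.An
open Pool.Agent.H126R3 (exists_F le_of_cast_zero Qc Qc_pos Qc_rpow)
open Pool.Agent.Y707.RX (cmb)

section
variable {F : Type} [Field F] [Fintype F] [DecidableEq F]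

open WeierstrassCurve WeierstrassCurve.Affine in
/-- the trace of Frobenius of `Y² = c(X) + w` -/
theorem trE_cubic (hF : ringChar F ≠ 2) (W : WeierstrassCurve F) (c : Polynomial F) (w : F)
    (hc : c.Monic) (hd : c.natDegree = 3)
    (h1 : W.a₁ = 0) (h2 : W.a₂ = c.coeff 2) (h3 : W.a₃ = 0) (h4 : W.a₄ = c.coeff 1)
    (h6 : W.a₆ = c.coeff 0 + w) (hD : W.Δ ≠ 0) : trE W = -Sw c w := by
  have h20 : (2 : F) ≠ 0 := Ring.two_ne_zero hF
  have hc3 : c.coeff 3 = 1 := by rw [← hd]; exact hc
  have hev : ∀ x : F, c.eval x = x ^ 3 + c.coeff 2 * x ^ 2 + c.coeff 1 * x + c.coeff 0 := by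
    intro x
    rw [Polynomial.eval_eq_sum_range, hd, Finset.sum_range_succ, Finset.sum_range_succ,
      Finset.sum_range_succ, Finset.sum_range_one, hc3]
    ring
  have heq : ∀ x y : F, W.toAffine.Equation x y ↔ y ^ 2 = c.eval x + w := by
    intro x y
    rw [equation_iff, h1, h2, h3, h4, h6, hev]
    constructor <;> intro h <;> linear_combination h
  have hE : W.IsElliptic := ⟨isUnit_iff_ne_zero.2 hD⟩
  have hns : ∀ x y : F, y ^ 2 = c.eval x + w → W.toAffine.Nonsingular x y := by
    intro x y h
    exact (W.toAffine.equation_iff_nonsingular_of_Δ_ne_zero hD).1 ((heq x y).2 h)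
  let e : W.toAffine.Point ≃ Option {P : F × F // P.2 ^ 2 = c.eval P.1 + w} :=
    { toFun := fun P => match P with
        | 0 => none
        | @Point.some _ _ _ x y h => some ⟨(x, y), (heq x y).1 h.1⟩
      invFun := fun o => match o with
        | none => 0
        | some P => Point.some P.1.1 P.1.2 (hns _ _ P.2)
      left_inv := by
        rintro (_ | ⟨x, y, h⟩) <;> rfl
      right_inv := by
        rintro (_ | ⟨⟨x, y⟩, h⟩) <;> rfl }
  have hcard : Nat.card W.toAffine.Point =
      (Finset.univ.filter fun P : F × F => P.2 ^ 2 = c.eval P.1 + w).card + 1 := by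
    rw [Nat.card_congr e, Nat.card_eq_fintype_card, Fintype.card_option, Fintype.card_subtype]
  have hcount : ((Finset.univ.filter fun P : F × F => P.2 ^ 2 = c.eval P.1 + w).card : ℤ) =
      Fintype.card F + Sw c w := by
    have g1 : (Finset.univ.filter fun P : F × F => P.2 ^ 2 = c.eval P.1 + w).card =
        ∑ x : F, (Finset.univ.filter fun z : F => z ^ 2 = c.eval x + w).card := by
      rw [Finset.card_filter, Fintype.sum_prod_type]
      refine Finset.sum_congr rfl fun x _ => ?_
      rw [Finset.card_filter]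
    rw [g1, Nat.cast_sum]
    have g2 : ∀ x : F, ((Finset.univ.filter fun z : F => z ^ 2 = c.eval x + w).card : ℤ) =
        quadraticChar F (c.eval x + w) + 1 := by
      intro x
      rw [← quadraticChar_card_sqrts hF]
      congr 2
      ext z
      simp
    rw [Finset.sum_congr rfl fun x _ => g2 x, Finset.sum_add_distrib, Sw, Finset.sum_const,
      Finset.card_univ, nsmul_eq_mul, mul_one, add_comm]
  rw [trE, hcard]
  push_cast
  rw [hcount, Nat.card_eq_fintype_card]
  ring

/-- the Weil bound -/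
theorem trE_weil (hF : ringChar F ≠ 2) (W : WeierstrassCurve F) (h1 : W.a₁ = 0) (h3 : W.a₃ = 0)
    (hD : W.Δ ≠ 0) : |(trE W : ℝ)| ≤ 2 * √(Fintype.card F) := by
  let c : Polynomial F := Polynomial.X ^ 3 + Polynomial.C W.a₂ * Polynomial.X ^ 2 +
    Polynomial.C W.a₄ * Polynomial.X + Polynomial.C W.a₆
  have hd : c.natDegree = 3 := by
    show (Polynomial.X ^ 3 + Polynomial.C W.a₂ * Polynomial.X ^ 2 +
      Polynomial.C W.a₄ * Polynomial.X + Polynomial.C W.a₆ : Polynomial F).natDegree = 3
    compute_degree!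
  have hco : c.coeff 0 = W.a₆ ∧ c.coeff 1 = W.a₄ ∧ c.coeff 2 = W.a₂ ∧ c.coeff 3 = 1 := by
    refine ⟨?_, ?_, ?_, ?_⟩ <;> simp [c, Polynomial.coeff_X, Polynomial.coeff_C]
  have hc : c.Monic := by
    rw [Polynomial.Monic, Polynomial.leadingCoeff, hd]
    exact hco.2.2.2
  have h := trE_cubic hF W c 0 hc hd h1 hco.2.2.1.symm h3 hco.2.1.symm (by rw [add_zero]; exact hco.1.symm)
    hD
  have hw := Pool.Agent.H341R2.Sharp.weil_sharp_monic hF hc (by omega) (by
    intro a g h0
    have hodd' : Odd (Polynomial.C a * g ^ 2).natDegree := by rw [← h0, hd]; decide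
    have ha : a ≠ 0 := by
      rintro rfl
      simp at hodd'
    rw [Polynomial.natDegree_C_mul ha, Polynomial.natDegree_pow] at hodd'
    exact (Nat.not_odd_iff_even.2 (even_two_mul _)) hodd')
  rw [hd] at hw
  have h5 : (Sw c 0 : ℝ) = ∑ x : F, (quadraticChar F (c.eval x) : ℝ) := by
    rw [Sw]
    push_cast
    refine Finset.sum_congr rfl fun x _ => ?_
    rw [add_zero]
  rw [h, Int.cast_neg, abs_neg, h5]
  norm_num at hw
  exact hw

end

end Pool.Agent.R410.BS
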