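import Pool.Agent.TH958.An.Fib
import Pool.Agent.R410.BS.Arr

/-!
# The ring of the fibre product of pencils of hyperelliptic curves
-/

set_option autoImplicit false
set_option linter.all false

open Polynomial

namespace Pool.Agent.R410.BS

open Pool.Agent.TH958.FP (RR yR yR_sq mkR mkR_surj)
open Pool.Agent.TH958.An (liftRing liftRing_base liftRing_y RR_ringHom_ext)

section
variable {A : Type} [CommRing A] {r : ℕ} (f : Fin r → A[X])

/-- the element `f_i(x_i) + w` -/
noncomputable def wA (i : Fin r) : MvPolynomial (Option (Fin r)) A :=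
  eval₂ MvPolynomial.C (MvPolynomial.X (some i)) (f i) + MvPolynomial.X none

/-- the ring `A[w, x_i, y_i] / (y_i² = f_i(x_i) + w)` -/
abbrev BB : Type := RR (wA f)

/-- the inclusion of the constants -/
noncomputable def cst : A →+* BB f := (algebraMap (MvPolynomial (Option (Fin r)) A) (BB f)).comp
  MvPolynomial.C

/-- the parameter -/
noncomputable def wB : BB f := algebraMap (MvPolynomial (Option (Fin r)) A) (BB f)
  (MvPolynomial.X none)

/-- the coordinate `x_i` -/
noncomputable def xB (i : Fin r) : BB f := algebraMap (MvPolynomial (Option (Fin r)) A) (BB f)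
  (MvPolynomial.X (some i))

theorem hom_wA {S : Type} [CommRing S] (φ : BB f →+* S) (i : Fin r) :
    φ (algebraMap (MvPolynomial (Option (Fin r)) A) (BB f) (wA f i)) =
      eval₂ (φ.comp (cst f)) (φ (xB f i)) (f i) + φ (wB f) := by
  rw [wA, map_add, map_add, hom_eval₂, hom_eval₂]
  rfl

theorem hom_y {S : Type} [CommRing S] (φ : BB f →+* S) (i : Fin r) :
    φ (yR (wA f) i) ^ 2 = eval₂ (φ.comp (cst f)) (φ (xB f i)) (f i) + φ (wB f) := by
  rw [← map_pow, yR_sq, hom_wA]

variable {f}

theorem bb_ext {S : Type} [CommRing S] {φ φ' : BB f →+* S} (h1 : φ.comp (cst f) = φ'.comp (cst f))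
    (h2 : φ (wB f) = φ' (wB f)) (h3 : ∀ i, φ (xB f i) = φ' (xB f i))
    (h4 : ∀ i, φ (yR (wA f) i) = φ' (yR (wA f) i)) : φ = φ' := by
  apply RR_ringHom_ext
  · intro p
    have h : φ.comp (algebraMap (MvPolynomial (Option (Fin r)) A) (BB f)) =
        φ'.comp (algebraMap (MvPolynomial (Option (Fin r)) A) (BB f)) := by
      apply MvPolynomial.ringHom_ext
      · intro a
        exact congrArg (fun g : A →+* S => g a) h1
      · rintro (_ | i)
        · exact h2
        · exact h3 i
    exact congrArg (fun g => g p) h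
  · exact h4

variable (f)

/-- the homomorphism with given values -/
noncomputable def mkH {S : Type} [CommRing S] (ψ : A →+* S) (w : S) (x y : Fin r → S)
    (hy : ∀ i, y i ^ 2 = eval₂ ψ (x i) (f i) + w) : BB f →+* S :=
  liftRing (wA f) (MvPolynomial.eval₂Hom ψ (fun o => o.elim w x)) y (by
    intro i
    rw [hy, wA, map_add, hom_eval₂]
    congr 1
    · congr 1
      · ext a
        simp
      · simp
    · simp)

theorem mkH_base {S : Type} [CommRing S] (ψ : A →+* S) (w : S) (x y : Fin r → S)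
    (hy : ∀ i, y i ^ 2 = eval₂ ψ (x i) (f i) + w) (p : MvPolynomial (Option (Fin r)) A) :
    mkH f ψ w x y hy (algebraMap (MvPolynomial (Option (Fin r)) A) (BB f) p) =
      MvPolynomial.eval₂Hom ψ (fun o => o.elim w x) p := by
  unfold mkH
  rw [liftRing_base]

theorem mkH_c {S : Type} [CommRing S] (ψ : A →+* S) (w : S) (x y : Fin r → S)
    (hy : ∀ i, y i ^ 2 = eval₂ ψ (x i) (f i) + w) : (mkH f ψ w x y hy).comp (cst f) = ψ := by
  refine RingHom.ext fun a => ?_
  have h := mkH_base f ψ w x y hy (MvPolynomial.C a)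
  rw [MvPolynomial.coe_eval₂Hom, MvPolynomial.eval₂_C] at h
  exact h

theorem mkH_w {S : Type} [CommRing S] (ψ : A →+* S) (w : S) (x y : Fin r → S)
    (hy : ∀ i, y i ^ 2 = eval₂ ψ (x i) (f i) + w) : mkH f ψ w x y hy (wB f) = w := by
  have h := mkH_base f ψ w x y hy (MvPolynomial.X none)
  rw [MvPolynomial.coe_eval₂Hom, MvPolynomial.eval₂_X] at h
  exact h

theorem mkH_x {S : Type} [CommRing S] (ψ : A →+* S) (w : S) (x y : Fin r → S)
    (hy : ∀ i, y i ^ 2 = eval₂ ψ (x i) (f i) + w) (i : Fin r) :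
    mkH f ψ w x y hy (xB f i) = x i := by
  have h := mkH_base f ψ w x y hy (MvPolynomial.X (some i))
  rw [MvPolynomial.coe_eval₂Hom, MvPolynomial.eval₂_X] at h
  exact h

theorem mkH_y {S : Type} [CommRing S] (ψ : A →+* S) (w : S) (x y : Fin r → S)
    (hy : ∀ i, y i ^ 2 = eval₂ ψ (x i) (f i) + w) (i : Fin r) :
    mkH f ψ w x y hy (yR (wA f) i) = y i := by
  unfold mkH
  rw [liftRing_y]

/-- the points -/
noncomputable def bbEquiv (F : Type) [Field F] : (BB f →+* F) ≃
    Σ ψ : A →+* F, Σ w : F, ∀ i : Fin r, {p : F × F // p.2 ^ 2 = ((f i).map ψ).eval p.1 + w} where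
  toFun φ := ⟨φ.comp (cst f), φ (wB f), fun i => ⟨(φ (xB f i), φ (yR (wA f) i)), by
    rw [eval_map]
    exact hom_y f φ i⟩⟩
  invFun v := mkH f v.1 v.2.1 (fun i => (v.2.2 i).1.1) (fun i => (v.2.2 i).1.2) (fun i => by
    rw [← eval_map]
    exact (v.2.2 i).2)
  left_inv φ := by
    apply bb_ext
    · rw [mkH_c]
    · rw [mkH_w]
    · intro i
      rw [mkH_x]
    · intro i
      rw [mkH_y]
  right_inv v := by
    obtain ⟨ψ, w, p⟩ := v
    have gen : ∀ (ψ' : A →+* F) (w' : F)
        (p' : ∀ i : Fin r, {p : F × F // p.2 ^ 2 = ((f i).map ψ').eval p.1 + w'}), ψ' = ψ → w' = w →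
          (∀ i, (p' i).1 = (p i).1) →
          (⟨ψ', w', p'⟩ : Σ ψ : A →+* F, Σ w : F, ∀ i : Fin r,
            {p : F × F // p.2 ^ 2 = ((f i).map ψ).eval p.1 + w}) = ⟨ψ, w, p⟩ := by
      rintro ψ' w' p' rfl rfl h
      congr 2
      funext i
      exact Subtype.ext (h i)
    refine gen _ _ _ (mkH_c f _ _ _ _ _) (mkH_w f _ _ _ _ _) fun i => ?_
    exact Prod.ext (mkH_x f _ _ _ _ _ i) (mkH_y f _ _ _ _ _ i)

instance bb_ft [Algebra.FiniteType ℤ A] : Algebra.FiniteType ℤ (BB f) := by
  have h1 : Algebra.FiniteType A (MvPolynomial (Option (Fin r)) A) := inferInstance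
  have h2 : Algebra.FiniteType (MvPolynomial (Option (Fin r)) A) (BB f) :=
    Algebra.FiniteType.of_surjective (mkR (wA f)) (mkR_surj _)
  have h3 : algebraMap ℤ (BB f) = ((algebraMap (MvPolynomial (Option (Fin r)) A) (BB f)).comp
      (algebraMap A (MvPolynomial (Option (Fin r)) A))).comp (algebraMap ℤ A) := RingHom.ext_int _ _
  rw [← RingHom.finiteType_algebraMap, h3]
  exact ((RingHom.finiteType_algebraMap.2 h2).comp (RingHom.finiteType_algebraMap.2 h1)).comp
    (RingHom.finiteType_algebraMap.2 inferInstance)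

end

end Pool.Agent.R410.BS
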