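import Pool.Agent.TH958.An.Pts
import Pool.Agent.H126R3.CharM

/-!
# The number of the points of a domain of finite type over the integers

For a domain `R` of finite type over `ℤ` whose field of fractions is of characteristic zero and of
transcendence degree `e`, the number of the points with values in a field with `q` elements is
`O(q ^ e)`, and for `u ≠ 0` the number of those with `u = 0` is `O(q ^ (e - 1))`.
-/

set_option autoImplicit false
set_option linter.all false

open Polynomial

namespace Pool.Agent.R410.BS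

section fib
variable {S R F : Type} [CommRing S] [CommRing R] [Algebra S R] [Field F] [Finite F]

/-- the points above a set of points of the base, when the generators are roots of given polynomials -/
theorem fib_count [Finite (S →+* F)] (G : Finset R) (hG : Algebra.adjoin S (G : Set R) = ⊤)
    (Q : R → S[X]) (hQ : ∀ g ∈ G, aeval g (Q g) = 0) (T : Set (S →+* F))
    (hT : ∀ ψ ∈ T, ∀ g ∈ G, (Q g).map ψ ≠ 0) :
    Nat.card {φ : R →+* F // φ.comp (algebraMap S R) ∈ T} ≤
      Nat.card T * ∏ g ∈ G, (Q g).natDegree := by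
  classical
  have := Fintype.ofFinite F
  have hfT : Finite T := inferInstance
  have := Fintype.ofFinite T
  have hroot : ∀ (φ : R →+* F), ∀ g ∈ G, ((Q g).map (φ.comp (algebraMap S R))).eval (φ g) = 0 := by
    intro φ g hg
    rw [eval_map, ← hom_eval₂, ← aeval_def, hQ g hg, map_zero]
  let B : T → Type := fun ψ => ∀ g : G, {x : F // x ∈ ((Q g.1).map ψ.1).roots.toFinset}
  let j : {φ : R →+* F // φ.comp (algebraMap S R) ∈ T} → Σ ψ : T, B ψ := fun φ =>
    ⟨⟨_, φ.2⟩, fun g => ⟨φ.1 g.1, by
      rw [Multiset.mem_toFinset, mem_roots (hT _ φ.2 g.1 g.2), IsRoot.def]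
      exact hroot φ.1 g.1 g.2⟩⟩
  have hj : Function.Injective j := by
    intro φ φ' h
    have h1 : φ.1.comp (algebraMap S R) = φ'.1.comp (algebraMap S R) :=
      congrArg (fun w : (Σ ψ : T, B ψ) => (w.1 : T).1) h
    have h2 : ∀ g ∈ G, φ.1 g = φ'.1 g := by
      intro g hg
      have h3 : ∀ (w w' : Σ ψ : T, B ψ), w = w' → ((w.2 ⟨g, hg⟩).1 : F) = (w'.2 ⟨g, hg⟩).1 := by
        rintro w w' rfl
        rfl
      exact h3 _ _ h
    apply Subtype.ext
    refine RingHom.ext fun x => ?_
    have hx : x ∈ Algebra.adjoin S (G : Set R) := by rw [hG]; trivial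
    induction hx using Algebra.adjoin_induction with
    | mem x hx => exact h2 x hx
    | algebraMap s => exact congrArg (fun f : S →+* F => f s) h1
    | add x y _ _ h3 h4 => rw [map_add, map_add, h3, h4]
    | mul x y _ _ h3 h4 => rw [map_mul, map_mul, h3, h4]
  have h1 := Nat.card_le_card_of_injective j hj
  refine h1.trans ?_
  rw [Nat.card_sigma]
  have h2 : ∀ ψ ∈ (Finset.univ : Finset T), Nat.card (B ψ) ≤ ∏ g ∈ G, (Q g).natDegree := by
    intro ψ _
    rw [Nat.card_pi, ← Finset.prod_coe_sort G]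
    refine Finset.prod_le_prod' fun g _ => ?_
    rw [Nat.card_eq_fintype_card, Fintype.card_coe]
    exact (Multiset.toFinset_card_le _).trans ((card_roots' _).trans natDegree_map_le)
  refine (Finset.sum_le_card_nsmul _ _ _ h2).trans (le_of_eq ?_)
  rw [smul_eq_mul, Finset.card_univ, Nat.card_eq_fintype_card]

end fib

/-- the points of affine space -/
noncomputable def mvHom (s : ℕ) (F : Type) [Field F] : (MvPolynomial (Fin s) ℤ →+* F) ≃ (Fin s → F) where
  toFun ψ i := ψ (MvPolynomial.X i)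
  invFun z := ((MvPolynomial.aeval (R := ℤ) z : MvPolynomial (Fin s) ℤ →ₐ[ℤ] F) :
    MvPolynomial (Fin s) ℤ →+* F)
  left_inv ψ := by
    apply MvPolynomial.ringHom_ext
    · intro c
      rw [RingHom.coe_coe, MvPolynomial.aeval_C]
      simp
    · intro i
      rw [RingHom.coe_coe, MvPolynomial.aeval_X]
  right_inv z := by
    funext i
    show MvPolynomial.aeval (R := ℤ) z (MvPolynomial.X i) = z i
    rw [MvPolynomial.aeval_X]

theorem mvHom_symm (s : ℕ) (F : Type) [Field F] (z : Fin s → F) (p : MvPolynomial (Fin s) ℤ) :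
    (mvHom s F).symm z p = MvPolynomial.aeval (R := ℤ) z p := rfl

theorem card_mv (s : ℕ) (F : Type) [Field F] [Finite F] :
    Nat.card (MvPolynomial (Fin s) ℤ →+* F) = Nat.card F ^ s := by
  rw [Nat.card_congr (mvHom s F), Nat.card_fun, Nat.card_fin]

/-- the zeros of a polynomial with an invertible coefficient -/
theorem card_mv_zero (s : ℕ) (c : MvPolynomial (Fin s) ℤ) (μ : Fin s →₀ ℕ) (F : Type) [Field F]
    [Finite F] (hμ : ((c.coeff μ : ℤ) : F) ≠ 0) :
    (Nat.card {ψ : MvPolynomial (Fin s) ℤ →+* F // ψ c = 0} : ℝ) * Nat.card F ≤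
      c.totalDegree * (Nat.card F : ℝ) ^ s := by
  classical
  have := Fintype.ofFinite F
  have h0 : MvPolynomial.map (Int.castRingHom F) c ≠ 0 := by
    intro h
    apply hμ
    have := congrArg (MvPolynomial.coeff μ) h
    rwa [MvPolynomial.coeff_map, MvPolynomial.coeff_zero] at this
  have h1 := Pool.Agent.H126R3.sz _ h0
  rw [Fintype.card_fin, ← Nat.card_eq_fintype_card] at h1
  have h2 : Nat.card {ψ : MvPolynomial (Fin s) ℤ →+* F // ψ c = 0} =
      Nat.card {u : Fin s → F // MvPolynomial.eval u (MvPolynomial.map (Int.castRingHom F) c) = 0} := by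
    refine Nat.card_congr (Equiv.subtypeEquiv (mvHom s F) fun ψ => ?_)
    have h3 : MvPolynomial.eval (mvHom s F ψ) (MvPolynomial.map (Int.castRingHom F) c) = ψ c := by
      rw [MvPolynomial.eval_map]
      have h4 : ψ = (mvHom s F).symm (mvHom s F ψ) := ((mvHom s F).symm_apply_apply ψ).symm
      conv_rhs => rw [h4]
      rw [mvHom_symm, MvPolynomial.aeval_def]
      rfl
    rw [h3]
  rw [h2]
  refine h1.trans ?_
  gcongr
  have h5 : (MvPolynomial.map (Int.castRingHom F) c).support ⊆ c.support :=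
    MvPolynomial.support_map_subset _ _
  exact Finset.sup_mono h5

section spread
attribute [local instance] MvPolynomial.algebraMvPolynomial

variable {R K : Type} [CommRing R] [IsDomain R] [Algebra.FiniteType ℤ R] [Field K] [CharZero K]
  [Algebra R K]

/-- **Noether normalization, spread out.** -/
theorem spread (hinj : Function.Injective (algebraMap R K)) {e : ℕ} (he : Algebra.trdeg ℚ K ≤ e) :
    ∃ (s : ℕ) (z : Fin s → R), s ≤ e ∧ ∀ x : R, ∃ (m : ℤ) (Q : (MvPolynomial (Fin s) ℤ)[X]), m ≠ 0 ∧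
      Q.leadingCoeff = MvPolynomial.C m ∧
      eval₂ ((MvPolynomial.aeval (R := ℤ) z : MvPolynomial (Fin s) ℤ →ₐ[ℤ] R) :
        MvPolynomial (Fin s) ℤ →+* R) x Q = 0 := by
  classical
  obtain ⟨G, hG⟩ := (inferInstance : Algebra.FiniteType ℤ R).out
  let RQ : Subalgebra ℚ K := Algebra.adjoin ℚ (algebraMap R K '' (G : Set R))
  have hRQfg : RQ.FG := ⟨G.image (algebraMap R K), by rw [Finset.coe_image]⟩
  have hRQ : Algebra.FiniteType ℚ RQ := RQ.fg_iff_finiteType.1 hRQfg
  have hmem : ∀ x : R, algebraMap R K x ∈ RQ := by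
    intro x
    have hx : x ∈ Algebra.adjoin ℤ (G : Set R) := by rw [hG]; trivial
    induction hx using Algebra.adjoin_induction with
    | mem x hx => exact Algebra.subset_adjoin ⟨x, hx, rfl⟩
    | algebraMap n =>
      have : algebraMap R K (algebraMap ℤ R n) = algebraMap ℚ K (n : ℚ) := by simp
      rw [this]
      exact Subalgebra.algebraMap_mem _ _
    | add x y _ _ h1 h2 => rw [map_add]; exact add_mem h1 h2
    | mul x y _ _ h1 h2 => rw [map_mul]; exact mul_mem h1 h2
  have hden : ∀ c ∈ RQ, ∃ (n : ℤ) (r : R), n ≠ 0 ∧ (n : K) * c = algebraMap R K r := by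
    intro c hc
    induction hc using Algebra.adjoin_induction with
    | mem c hc =>
      obtain ⟨x, -, rfl⟩ := hc
      exact ⟨1, x, one_ne_zero, by simp⟩
    | algebraMap q =>
      refine ⟨q.den, (q.num : R), by exact_mod_cast q.den_ne_zero, ?_⟩
      have h1 : (algebraMap ℚ K q : K) = (q.num : K) / (q.den : K) := by
        rw [eq_ratCast]
        exact Rat.cast_def q
      have h2 : (q.den : K) ≠ 0 := by exact_mod_cast q.den_ne_zero
      rw [h1]
      push_cast
      rw [map_intCast]
      field_simp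
    | add x y _ _ h1 h2 =>
      obtain ⟨n, r, hn, hr⟩ := h1
      obtain ⟨m, t, hm, ht⟩ := h2
      refine ⟨n * m, m * r + n * t, mul_ne_zero hn hm, ?_⟩
      push_cast
      simp only [map_add, map_mul, map_intCast, ← hr, ← ht]
      ring
    | mul x y _ _ h1 h2 =>
      obtain ⟨n, r, hn, hr⟩ := h1
      obtain ⟨m, t, hm, ht⟩ := h2
      refine ⟨n * m, r * t, mul_ne_zero hn hm, ?_⟩
      push_cast
      simp only [map_mul, ← hr, ← ht]
      ring
  obtain ⟨s, g, hginj, hgint⟩ := exists_integral_inj_algHom_of_fg ℚ RQ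
  -- the number of the variables
  have hs : s ≤ e := by
    have h1 : AlgebraicIndependent ℚ fun i : Fin s => ((g (MvPolynomial.X i) : RQ) : K) := by
      rw [algebraicIndependent_iff_injective_aeval]
      have h2 : (MvPolynomial.aeval (R := ℚ) fun i : Fin s => ((g (MvPolynomial.X i) : RQ) : K)) =
          RQ.val.comp g := by
        apply MvPolynomial.algHom_ext
        intro i
        rw [MvPolynomial.aeval_X]
        rfl
      rw [h2]
      exact Subtype.val_injective.comp hginj
    have h3 := h1.lift_cardinalMk_le_trdeg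
    have h4 : ((s : ℕ) : Cardinal.{0}) ≤ Algebra.trdeg ℚ K := by simpa using h3
    exact_mod_cast h4.trans he
  choose n z hn hz using fun i : Fin s => hden _ (g (MvPolynomial.X i)).2
  refine ⟨s, z, hs, fun x => ?_⟩
  -- the new coordinates
  let zQ : Fin s → RQ := fun i => ⟨algebraMap R K (z i), hmem _⟩
  let g₁ : MvPolynomial (Fin s) ℚ →ₐ[ℚ] RQ := MvPolynomial.aeval zQ
  let σ : MvPolynomial (Fin s) ℚ →ₐ[ℚ] MvPolynomial (Fin s) ℚ :=
    MvPolynomial.aeval fun i => MvPolynomial.C ((n i : ℚ)⁻¹) * MvPolynomial.X i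
  have hgs : g = g₁.comp σ := by
    apply MvPolynomial.algHom_ext
    intro i
    apply Subtype.ext
    have h1 : σ (MvPolynomial.X i) = MvPolynomial.C ((n i : ℚ)⁻¹) * MvPolynomial.X i :=
      MvPolynomial.aeval_X _ _
    have h2 : g₁ (MvPolynomial.X i) = zQ i := MvPolynomial.aeval_X _ _
    have h3 : ((g₁ (MvPolynomial.C ((n i : ℚ)⁻¹)) : RQ) : K) = (n i : K)⁻¹ := by
      have h4 : g₁ (MvPolynomial.C ((n i : ℚ)⁻¹)) = algebraMap ℚ RQ ((n i : ℚ)⁻¹) :=
        g₁.commutes _
      rw [h4]
      show algebraMap ℚ K _ = _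
      simp
    rw [AlgHom.comp_apply, h1, map_mul, h2]
    show _ = ((g₁ (MvPolynomial.C ((n i : ℚ)⁻¹)) : RQ) : K) * (zQ i : K)
    rw [h3]
    show _ = (n i : K)⁻¹ * algebraMap R K (z i)
    rw [← hz]
    have h5 : (n i : K) ≠ 0 := by exact_mod_cast hn i
    field_simp
  obtain ⟨P, hPm, hP⟩ := hgint ⟨algebraMap R K x, hmem x⟩
  set P₁ := P.map (σ : MvPolynomial (Fin s) ℚ →+* MvPolynomial (Fin s) ℚ) with hP₁
  have hP₁m : P₁.Monic := hPm.map _
  have hP₁0 : eval₂ (g₁ : MvPolynomial (Fin s) ℚ →+* RQ) ⟨algebraMap R K x, hmem x⟩ P₁ = 0 := by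
    rw [hP₁, eval₂_map]
    have h1 : (g₁ : MvPolynomial (Fin s) ℚ →+* RQ).comp
        (σ : MvPolynomial (Fin s) ℚ →+* MvPolynomial (Fin s) ℚ) = g := by
      rw [hgs]
      rfl
    rw [h1]
    exact hP
  -- the denominators
  let Mz : Submonoid (MvPolynomial (Fin s) ℤ) := (nonZeroDivisors ℤ).map
    (MvPolynomial.C (σ := Fin s))
  have hloc : IsLocalization Mz (MvPolynomial (Fin s) ℚ) :=
    MvPolynomial.isLocalization (nonZeroDivisors ℤ) ℚ
  obtain ⟨b, hb⟩ := IsLocalization.integerNormalization_map_to_map Mz P₁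
  obtain ⟨⟨_, ⟨m, hm, rfl⟩⟩, rfl⟩ : ∃ b', b' = b := ⟨b, rfl⟩
  set Q := IsLocalization.integerNormalization Mz P₁ with hQ
  have hmap : Q.map (algebraMap (MvPolynomial (Fin s) ℤ) (MvPolynomial (Fin s) ℚ)) =
      C (MvPolynomial.C (m : ℚ)) * P₁ := by
    rw [hb]
    ext i : 1
    rw [coeff_C_mul, coeff_smul]
    show (MvPolynomial.C m : MvPolynomial (Fin s) ℤ) • P₁.coeff i = _
    rw [Algebra.smul_def]
    congr 1
    show MvPolynomial.map (algebraMap ℤ ℚ) (MvPolynomial.C m) = _
    rw [MvPolynomial.map_C]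
    rfl
  have hm0 : m ≠ 0 := nonZeroDivisors.ne_zero hm
  have hainj : Function.Injective (algebraMap (MvPolynomial (Fin s) ℤ) (MvPolynomial (Fin s) ℚ)) := by
    have : (algebraMap (MvPolynomial (Fin s) ℤ) (MvPolynomial (Fin s) ℚ)) =
        MvPolynomial.map (algebraMap ℤ ℚ) := rfl
    rw [this]
    exact MvPolynomial.map_injective _ (FaithfulSMul.algebraMap_injective ℤ ℚ)
  refine ⟨m, Q, hm0, ?_, ?_⟩
  · apply hainj
    rw [← leadingCoeff_map_of_injective hainj, hmap, leadingCoeff_mul, hP₁m.leadingCoeff, mul_one,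
      leadingCoeff_C]
    simp
  · apply hinj
    rw [map_zero, hom_eval₂]
    have h1 : (algebraMap R K).comp ((MvPolynomial.aeval (R := ℤ) z : MvPolynomial (Fin s) ℤ →ₐ[ℤ] R) :
        MvPolynomial (Fin s) ℤ →+* R) = ((RQ.val : RQ →+* K).comp
          (g₁ : MvPolynomial (Fin s) ℚ →+* RQ)).comp
            (algebraMap (MvPolynomial (Fin s) ℤ) (MvPolynomial (Fin s) ℚ)) := by
      apply MvPolynomial.ringHom_ext
      · intro c
        simp
      · intro i
        have h2 : g₁ (MvPolynomial.X i) = zQ i := MvPolynomial.aeval_X _ _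
        have h3 : (algebraMap (MvPolynomial (Fin s) ℤ) (MvPolynomial (Fin s) ℚ)) (MvPolynomial.X i) =
            MvPolynomial.X i := MvPolynomial.map_X _ _
        rw [RingHom.comp_apply, RingHom.comp_apply, RingHom.comp_apply, h3, RingHom.coe_coe,
          RingHom.coe_coe, RingHom.coe_coe, h2, MvPolynomial.aeval_X]
        rfl
    rw [h1, ← eval₂_map, hmap, eval₂_mul]
    have h4 : eval₂ ((RQ.val : RQ →+* K).comp (g₁ : MvPolynomial (Fin s) ℚ →+* RQ))
        (algebraMap R K x) P₁ = 0 := by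
      have h5 := congrArg (RQ.val : RQ →+* K) hP₁0
      rw [map_zero, hom_eval₂] at h5
      exact h5
    rw [h4, mul_zero]

end spread

end Pool.Agent.R410.BS
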