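import Pool.Agent.R410.BS.Cod

/-!
# The number of the points of a domain of finite type over the integers: the bounds
-/

set_option autoImplicit false
set_option linter.all false

open Polynomial

namespace Pool.Agent.R410.BS

section
variable {R K : Type} [CommRing R] [IsDomain R] [Algebra.FiniteType ℤ R] [Field K] [CharZero K]
  [Algebra R K]

/-- the last coefficient -/
theorem const_coeff {S : Type} [CommRing S] [IsDomain S] (θ : S →+* R) (u : R) (hu : u ≠ 0) :
    ∀ (n : ℕ) (Q : S[X]), Q.natDegree ≤ n → Q ≠ 0 → eval₂ θ u Q = 0 →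
      ∃ c : S, c ≠ 0 ∧ u ∣ θ c := by
  intro n
  induction n with
  | zero =>
    intro Q hn hQ h0
    rw [Nat.le_zero, natDegree_eq_zero] at hn
    obtain ⟨c, rfl⟩ := hn
    rw [eval₂_C] at h0
    refine ⟨c, fun hc => hQ (by rw [hc, C_0]), ?_⟩
    rw [h0]
    exact dvd_zero _
  | succ n ih =>
    intro Q hn hQ h0
    have h1 := Q.divX_mul_X_add
    by_cases hc : Q.coeff 0 = 0
    · rw [hc, C_0, add_zero] at h1
      have h2 : Q.divX ≠ 0 := by
        intro h3
        rw [h3, zero_mul] at h1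
        exact hQ h1.symm
      have h3 : eval₂ θ u Q.divX = 0 := by
        rw [← h1, eval₂_mul, eval₂_X] at h0
        exact (mul_eq_zero.1 h0).resolve_right hu
      refine ih Q.divX ?_ h2 h3
      rw [natDegree_divX_eq_natDegree_tsub_one]
      omega
    · refine ⟨Q.coeff 0, hc, ?_⟩
      rw [← h1, eval₂_add, eval₂_mul, eval₂_X, eval₂_C] at h0
      exact ⟨-eval₂ θ u Q.divX, by linear_combination h0⟩

/-- **The points in good characteristics.** -/
theorem good_le (hinj : Function.Injective (algebraMap R K)) {e : ℕ} (he : Algebra.trdeg ℚ K ≤ e)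
    {u : R} (hu : u ≠ 0) : ∃ (C : ℝ) (N : ℕ), 0 ≤ C ∧ N ≠ 0 ∧ ∀ (F : Type) [Field F] [Finite F],
      ((N : ℕ) : F) ≠ 0 → (Nat.card (R →+* F) : ℝ) ≤ C * (Nat.card F : ℝ) ^ e ∧
        (Nat.card {φ : R →+* F // φ u = 0} : ℝ) * Nat.card F ≤ C * (Nat.card F : ℝ) ^ e := by
  classical
  obtain ⟨s, z, hs, h⟩ := spread (R := R) (K := K) hinj he
  choose m Q hm hQl hQ0 using h
  obtain ⟨G, hG⟩ := (inferInstance : Algebra.FiniteType ℤ R).out
  let S := MvPolynomial (Fin s) ℤ
  let θ : S →+* R := ((MvPolynomial.aeval (R := ℤ) z : MvPolynomial (Fin s) ℤ →ₐ[ℤ] R) :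
    MvPolynomial (Fin s) ℤ →+* R)
  let _ : Algebra S R := θ.toAlgebra
  have hQne : ∀ x, Q x ≠ 0 := by
    intro x h0
    have h1 := hQl x
    rw [h0, leadingCoeff_zero] at h1
    exact hm x (MvPolynomial.C_injective _ _ (by rw [← h1, map_zero]))
  obtain ⟨c, hc0, hcu⟩ := const_coeff θ u hu _ (Q u) le_rfl (hQne u) (hQ0 u)
  obtain ⟨μ, hμ⟩ : ∃ μ, MvPolynomial.coeff μ c ≠ 0 := by
    by_contra hcon
    push Not at hcon
    exact hc0 (MvPolynomial.ext _ _ (by simpa using hcon))
  set D : ℕ := ∏ g ∈ G, (Q g).natDegree with hD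
  refine ⟨D * (1 + c.totalDegree), (MvPolynomial.coeff μ c).natAbs * ∏ g ∈ G, (m g).natAbs,
    by positivity, ?_, ?_⟩
  · refine mul_ne_zero (Int.natAbs_ne_zero.2 hμ) (Finset.prod_ne_zero_iff.2 fun g _ =>
      Int.natAbs_ne_zero.2 (hm g))
  intro F _ _ hN
  have hcast : ∀ n : ℤ, ((n.natAbs : ℕ) : F) ≠ 0 → ((n : ℤ) : F) ≠ 0 := by
    intro n h1 h2
    apply h1
    rcases Int.natAbs_eq n with h3 | h3
    · have h4 : (((n.natAbs : ℕ) : ℤ) : F) = 0 := by
        rw [← h3]
        exact h2
      rwa [Int.cast_natCast] at h4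
    · have h4 : ((-((n.natAbs : ℕ) : ℤ) : ℤ) : F) = 0 := by
        rw [← h3]
        exact h2
      rw [Int.cast_neg, neg_eq_zero, Int.cast_natCast] at h4
      exact h4
  rw [Nat.cast_mul, Nat.cast_prod] at hN
  have hμF := hcast _ (left_ne_zero_of_mul hN)
  have hmF : ∀ g ∈ G, ((m g : ℤ) : F) ≠ 0 := fun g hg =>
    hcast _ (Finset.prod_ne_zero_iff.1 (right_ne_zero_of_mul hN) g hg)
  have hfinS : Finite (S →+* F) := Finite.of_equiv _ (mvHom s F).symm
  have hGS : Algebra.adjoin S (G : Set R) = ⊤ := by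
    rw [eq_top_iff]
    intro x _
    have hx : x ∈ Algebra.adjoin ℤ (G : Set R) := by rw [hG]; trivial
    induction hx using Algebra.adjoin_induction with
    | mem x hx => exact Algebra.subset_adjoin hx
    | algebraMap n =>
      have : algebraMap ℤ R n = algebraMap S R (n : S) := by rw [map_intCast]; simp
      rw [this]
      exact Subalgebra.algebraMap_mem _ _
    | add x y _ _ h1 h2 => exact add_mem (h1 trivial) (h2 trivial)
    | mul x y _ _ h1 h2 => exact mul_mem (h1 trivial) (h2 trivial)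
  have hQS : ∀ g ∈ G, aeval g (Q g) = 0 := fun g _ => hQ0 g
  have hT : ∀ ψ : S →+* F, ∀ g ∈ G, (Q g).map ψ ≠ 0 := by
    intro ψ g hg h0
    have h1 := congrArg (fun p => p.coeff (Q g).natDegree) h0
    simp only [coeff_map, coeff_zero, coeff_natDegree] at h1
    rw [hQl] at h1
    apply hmF g hg
    have h2 : ψ (MvPolynomial.C (m g)) = ((m g : ℤ) : F) := by
      rw [show (MvPolynomial.C (m g) : MvPolynomial (Fin s) ℤ) = ((m g : ℤ) : MvPolynomial (Fin s) ℤ) from
        (MvPolynomial.C_apply (R := ℤ) (σ := Fin s) (a := m g)) ▸ (by simp), map_intCast]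
    rw [← h2]
    exact h1
  have hq1 : (1 : ℝ) ≤ Nat.card F := by exact_mod_cast Nat.card_pos
  have hqs : (Nat.card F : ℝ) ^ s ≤ (Nat.card F : ℝ) ^ e := pow_le_pow_right₀ hq1 hs
  have hD0 : (0 : ℝ) ≤ D := Nat.cast_nonneg _
  have hc0' : (0 : ℝ) ≤ c.totalDegree := Nat.cast_nonneg _
  have hqe : (0 : ℝ) ≤ (Nat.card F : ℝ) ^ e := by positivity
  constructor
  · have h1 := fib_count G hGS Q hQS (Set.univ : Set (S →+* F)) (fun ψ _ => hT ψ)
    have h2 : Nat.card {φ : R →+* F // φ.comp (algebraMap S R) ∈ (Set.univ : Set (S →+* F))} =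
        Nat.card (R →+* F) := Nat.card_congr (Equiv.subtypeUnivEquiv fun _ => Set.mem_univ _)
    have h3 : Nat.card (Set.univ : Set (S →+* F)) = Nat.card F ^ s := by
      rw [Nat.card_congr (Equiv.Set.univ _), card_mv]
    rw [h2, h3] at h1
    have h4 : (Nat.card (R →+* F) : ℝ) ≤ (Nat.card F : ℝ) ^ s * D := by exact_mod_cast h1
    calc (Nat.card (R →+* F) : ℝ) ≤ (Nat.card F : ℝ) ^ s * D := h4
      _ ≤ (Nat.card F : ℝ) ^ e * D := mul_le_mul_of_nonneg_right hqs hD0
      _ ≤ D * (1 + c.totalDegree) * (Nat.card F : ℝ) ^ e := by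
          nlinarith [mul_nonneg (mul_nonneg hD0 hc0') hqe]
  · have h1 := fib_count G hGS Q hQS {ψ : S →+* F | ψ c = 0} (fun ψ _ => hT ψ)
    have h2 : Nat.card {φ : R →+* F // φ u = 0} ≤
        Nat.card {φ : R →+* F // φ.comp (algebraMap S R) ∈ {ψ : S →+* F | ψ c = 0}} := by
      refine Nat.card_le_card_of_injective (fun φ => ⟨φ.1, ?_⟩) ?_
      · obtain ⟨v, hv⟩ := hcu
        show φ.1 (θ c) = 0
        rw [hv, map_mul, φ.2, zero_mul]
      · intro φ φ' h
        exact Subtype.ext (congrArg (fun w => w.1) h)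
    have h3 := card_mv_zero s c μ F hμF
    have h4 : (Nat.card {φ : R →+* F // φ u = 0} : ℝ) ≤
        Nat.card {ψ : MvPolynomial (Fin s) ℤ →+* F // ψ c = 0} * D := by exact_mod_cast h2.trans h1
    have h5 := mul_le_mul_of_nonneg_right h4 (show (0 : ℝ) ≤ Nat.card F by positivity)
    have h6 := mul_le_mul_of_nonneg_right h3 hD0
    have h7 : (c.totalDegree : ℝ) * (Nat.card F : ℝ) ^ s * D ≤ D * (1 + c.totalDegree) *
        (Nat.card F : ℝ) ^ e := by
      have h8 : (c.totalDegree : ℝ) * (Nat.card F : ℝ) ^ s ≤ (1 + c.totalDegree) *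
          (Nat.card F : ℝ) ^ e := by nlinarith
      nlinarith
    nlinarith

/-- **The points in one characteristic.** -/
theorem bad_le' (hinj : Function.Injective (algebraMap R K)) {e : ℕ} (he : Algebra.trdeg ℚ K ≤ e)
    (p : ℕ) (hp : p.Prime) : ∃ C : ℝ, 0 ≤ C ∧ ∀ (F : Type) [Field F] [Finite F],
      ((p : ℕ) : F) = 0 → (Nat.card (R →+* F) : ℝ) ≤ C * (Nat.card F : ℝ) ^ e := by
  classical
  have : Fact p.Prime := ⟨hp⟩
  let I : Ideal R := Ideal.span {(p : R)}
  let Rb := R ⧸ I
  have hfac : ∀ (F : Type) [Field F], ((p : ℕ) : F) = 0 → ∀ φ : R →+* F, ∀ a ∈ I, φ a = 0 := by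
    intro F _ hF φ a ha
    obtain ⟨b, rfl⟩ := Ideal.mem_span_singleton.1 ha
    rw [map_mul, map_natCast, hF, zero_mul]
  rcases subsingleton_or_nontrivial Rb with hsub | hnt
  · refine ⟨0, le_rfl, fun F _ _ hF => ?_⟩
    have : IsEmpty (R →+* F) := by
      refine ⟨fun φ => ?_⟩
      have h1 : (1 : R) ∈ I := by
        rw [← Ideal.Quotient.eq_zero_iff_mem]
        exact Subsingleton.elim _ _
      have := hfac F hF φ 1 h1
      rw [map_one] at this
      exact one_ne_zero this
    rw [Nat.card_of_isEmpty]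
    simp
  have hpR : (p : Rb) = 0 := by
    have h1 : (Ideal.Quotient.mk I) (p : R) = 0 :=
      Ideal.Quotient.eq_zero_iff_mem.2 (Ideal.mem_span_singleton_self _)
    rwa [map_natCast] at h1
  have hchar : CharP Rb p := by
    refine (CharP.charP_iff_prime_eq_zero hp).2 hpR
  let _ : Algebra (ZMod p) Rb := ZMod.algebra Rb p
  have hft : Algebra.FiniteType (ZMod p) Rb := by
    have h1 : Algebra.FiniteType ℤ Rb :=
      Algebra.FiniteType.of_surjective (Ideal.Quotient.mkₐ ℤ I) Ideal.Quotient.mk_surjective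
    have : IsScalarTower ℤ (ZMod p) Rb := IsScalarTower.of_algebraMap_eq' (RingHom.ext_int _ _)
    exact Algebra.FiniteType.of_restrictScalars_finiteType ℤ (ZMod p) Rb
  obtain ⟨s, g, hginj, hgint⟩ := exists_integral_inj_algHom_of_fg (ZMod p) Rb
  choose x hx using fun i : Fin s => Ideal.Quotient.mk_surjective (I := I) (g (MvPolynomial.X i))
  have hcR : CharZero R := by
    refine charZero_of_injective_algebraMap (R := ℤ) ?_
    intro a b hab
    have h1 : (algebraMap R K).comp (algebraMap ℤ R) = algebraMap ℤ K := RingHom.ext_int _ _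
    apply FaithfulSMul.algebraMap_injective ℤ K
    rw [← h1, RingHom.comp_apply, RingHom.comp_apply, hab]
  have hs : s ≤ e := by
    have h1 : AlgebraicIndependent ℤ x := by
      rw [algebraicIndependent_iff_injective_aeval, injective_iff_map_eq_zero]
      intro P hP
      by_contra hP0
      have hpi : Prime (MvPolynomial.C (p : ℤ) : MvPolynomial (Fin s) ℤ) :=
        (MvPolynomial.prime_C_iff (Fin s)).2 (Nat.prime_iff_prime_int.1 hp)
      obtain ⟨Q, hPQ, hQ⟩ :=
        (FiniteMultiplicity.of_prime_left hpi hP0).exists_eq_pow_mul_and_not_dvd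
      have h2 : MvPolynomial.aeval x Q = 0 := by
        rw [hPQ, map_mul, map_pow] at hP
        refine (mul_eq_zero.1 hP).resolve_left (pow_ne_zero _ ?_)
        rw [MvPolynomial.aeval_C]
        simpa using hp.ne_zero
      have h3 : g (MvPolynomial.map (Int.castRingHom (ZMod p)) Q) =
          Ideal.Quotient.mk I (MvPolynomial.aeval x Q) := by
        have h4 : ((g : MvPolynomial (Fin s) (ZMod p) →+* Rb).comp
            (MvPolynomial.map (Int.castRingHom (ZMod p)))) = (Ideal.Quotient.mk I).comp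
              ((MvPolynomial.aeval x : MvPolynomial (Fin s) ℤ →ₐ[ℤ] R) :
                MvPolynomial (Fin s) ℤ →+* R) := by
          apply MvPolynomial.ringHom_ext
          · intro c
            simp
          · intro i
            rw [RingHom.comp_apply, MvPolynomial.map_X, RingHom.comp_apply, RingHom.coe_coe,
              RingHom.coe_coe, MvPolynomial.aeval_X, hx]
        exact congrArg (fun f => f Q) h4
      rw [h2, map_zero] at h3
      have h5 := hginj (h3.trans (map_zero g).symm)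
      exact hQ ((MvPolynomial.C_dvd_iff_zmod p Q).2 h5)
    have h2 : AlgebraicIndependent ℤ (algebraMap R K ∘ x) :=
      h1.map' (f := (algebraMap R K).toIntAlgHom) hinj
    have h3 := h2.lift_cardinalMk_le_trdeg
    have h4 : Algebra.trdeg ℤ K = Algebra.trdeg ℚ K := by
      have hZQ : Algebra.IsAlgebraic ℤ ℚ := IsLocalization.isAlgebraic (R := ℤ) (S := ℚ) (nonZeroDivisors ℤ)
      have h5 := trdeg_add_eq ℤ ℚ (A := K)
      rw [trdeg_eq_zero (R := ℤ) (A := ℚ), zero_add] at h5
      exact h5.symm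
    rw [h4] at h3
    have h5 : ((s : ℕ) : Cardinal.{0}) ≤ Algebra.trdeg ℚ K := by simpa using h3
    exact_mod_cast h5.trans he
  -- the count
  obtain ⟨G, hG⟩ := hft.out
  let S := MvPolynomial (Fin s) (ZMod p)
  let _ : Algebra S Rb := (g : MvPolynomial (Fin s) (ZMod p) →+* Rb).toAlgebra
  choose Q hQm hQ0 using fun y : Rb => hgint y
  refine ⟨(∏ y ∈ G, (Q y).natDegree : ℕ), Nat.cast_nonneg _, fun F _ _ hF => ?_⟩
  have hinjS : Function.Injective fun (ψ : S →+* F) (i : Fin s) => ψ (MvPolynomial.X i) := by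
    intro ψ ψ' h
    apply MvPolynomial.ringHom_ext
    · intro c
      have : (ψ.comp MvPolynomial.C : ZMod p →+* F) = ψ'.comp MvPolynomial.C := Subsingleton.elim _ _
      exact congrArg (fun f : ZMod p →+* F => f c) this
    · intro i
      exact congrFun h i
  have hfinS : Finite (S →+* F) := Finite.of_injective _ hinjS
  have hcardS : Nat.card (S →+* F) ≤ Nat.card F ^ s := by
    refine (Nat.card_le_card_of_injective _ hinjS).trans (le_of_eq ?_)
    rw [Nat.card_fun, Nat.card_fin]
  have hGS : Algebra.adjoin S (G : Set Rb) = ⊤ := by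
    rw [eq_top_iff]
    intro y _
    have hy : y ∈ Algebra.adjoin (ZMod p) (G : Set Rb) := by rw [hG]; trivial
    induction hy using Algebra.adjoin_induction with
    | mem y hy => exact Algebra.subset_adjoin hy
    | algebraMap c =>
      have : algebraMap (ZMod p) Rb c = algebraMap S Rb (MvPolynomial.C c) := (g.commutes c).symm
      rw [this]
      exact Subalgebra.algebraMap_mem _ _
    | add x y _ _ h1 h2 => exact add_mem (h1 trivial) (h2 trivial)
    | mul x y _ _ h1 h2 => exact mul_mem (h1 trivial) (h2 trivial)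
  have h1 := fib_count (F := F) G hGS Q (fun y _ => hQ0 y) Set.univ
    (fun ψ _ y _ => ((hQm y).map ψ).ne_zero)
  have h2 : Nat.card {φ : Rb →+* F // φ.comp (algebraMap S Rb) ∈ (Set.univ : Set (S →+* F))} =
      Nat.card (Rb →+* F) := Nat.card_congr (Equiv.subtypeUnivEquiv fun _ => Set.mem_univ _)
  have h3 : Nat.card (Set.univ : Set (S →+* F)) = Nat.card (S →+* F) :=
    Nat.card_congr (Equiv.Set.univ _)
  rw [h2, h3] at h1
  have h4 : Nat.card (R →+* F) ≤ Nat.card (Rb →+* F) := by
    have hfinRb : Finite (Rb →+* F) := by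
      have : Algebra.FiniteType ℤ Rb :=
        Algebra.FiniteType.of_surjective (Ideal.Quotient.mkₐ ℤ I) Ideal.Quotient.mk_surjective
      exact @Pool.Agent.TH958.An.finite_hom Rb _ this F _ _
    refine Nat.card_le_card_of_injective (fun φ => Ideal.Quotient.lift I φ (hfac F hF φ)) ?_
    intro φ φ' h
    refine RingHom.ext fun y => ?_
    have h7 : Ideal.Quotient.lift I φ (hfac F hF φ) (Ideal.Quotient.mk I y) =
        Ideal.Quotient.lift I φ' (hfac F hF φ') (Ideal.Quotient.mk I y) :=
      congrArg (fun f : Rb →+* F => f (Ideal.Quotient.mk I y)) h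
    rwa [Ideal.Quotient.lift_mk, Ideal.Quotient.lift_mk] at h7
  have h5 : Nat.card (R →+* F) ≤ Nat.card F ^ s * ∏ y ∈ G, (Q y).natDegree :=
    h4.trans (h1.trans (Nat.mul_le_mul_right _ hcardS))
  have h6 : (Nat.card (R →+* F) : ℝ) ≤ (Nat.card F : ℝ) ^ s * (∏ y ∈ G, (Q y).natDegree : ℕ) := by
    exact_mod_cast h5
  have hq1 : (1 : ℝ) ≤ Nat.card F := by exact_mod_cast Nat.card_pos
  have hqs : (Nat.card F : ℝ) ^ s ≤ (Nat.card F : ℝ) ^ e := pow_le_pow_right₀ hq1 hs
  refine h6.trans ?_
  rw [mul_comm]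
  exact mul_le_mul_of_nonneg_left hqs (Nat.cast_nonneg _)

/-- **The number of all the points.** -/
theorem hom_le (hinj : Function.Injective (algebraMap R K)) {e : ℕ} (he : Algebra.trdeg ℚ K ≤ e) :
    ∃ C : ℝ, 0 ≤ C ∧ ∀ (F : Type) [Field F] [Finite F],
      (Nat.card (R →+* F) : ℝ) ≤ C * (Nat.card F : ℝ) ^ e := by
  classical
  obtain ⟨C, N, hC, hN, h⟩ := good_le hinj he (one_ne_zero (α := R))
  choose! B hB hB' using fun p : ℕ => fun hp : p.Prime => bad_le' (R := R) (K := K) hinj he p hp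
  refine ⟨C + ∑ p ∈ N.primeFactors, B p, add_nonneg hC (Finset.sum_nonneg fun p hp =>
    hB p (Nat.prime_of_mem_primeFactors hp)), fun F _ _ => ?_⟩
  have hqe : (0 : ℝ) ≤ (Nat.card F : ℝ) ^ e := by positivity
  by_cases hNF : ((N : ℕ) : F) = 0
  · have hp : (ringChar F).Prime := by
      have := CharP.char_is_prime_or_zero F (ringChar F)
      rcases this with h1 | h1
      · exact h1
      · exfalso
        have h2 : CharZero F := by
          have h3 : CharP F 0 := h1 ▸ ringChar.charP F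
          exact CharP.charP_to_charZero F
        exact (not_finite F)
    have h1 : ringChar F ∈ N.primeFactors := by
      rw [Nat.mem_primeFactors]
      exact ⟨hp, (ringChar.spec F N).1 hNF, hN⟩
    have h2 := hB' _ hp F (ringChar.Nat.cast_ringChar)
    refine h2.trans (mul_le_mul_of_nonneg_right ?_ hqe)
    have h3 := Finset.single_le_sum (f := B) (fun p hp => hB p (Nat.prime_of_mem_primeFactors hp)) h1
    linarith
  · refine (h F hNF).1.trans (mul_le_mul_of_nonneg_right ?_ hqe)
    have := Finset.sum_nonneg (s := N.primeFactors) (f := B)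
      fun p hp => hB p (Nat.prime_of_mem_primeFactors hp)
    linarith

end

end Pool.Agent.R410.BS
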