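import Pool.Agent.TH958.An.Main
import Pool.Agent.Y707.RX.Cmp

/-!
# Euler products of degree two over a family of places: the order at the edge
-/

set_option autoImplicit false
set_option linter.all false

namespace Pool.Agent.R410.BS

open Filter Topology NumberField
open Pool.Agent.H126R3 (Qc Qc_pos Qc_rpow summable_Q)
open Pool.Agent.TH958.An (Dat qq rho rho_tsum_diff rho_summable Ac Ac_trivial hasProd_good)
open Pool.Agent.W385.CP (CB diffA sumA sumA' Qc_zero term_norm)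
open Pool.Agent.Y707.RX (SD cmb near_one summable_bdd)

section
variable {A : Nat.Primes × ℕ → ℂ} {e : ℕ} {C : ℝ}

/-- the terms with `k ≥ 2` -/
noncomputable def A2 (A : Nat.Primes × ℕ → ℂ) (c : Nat.Primes × ℕ) : ℂ := if 2 ≤ c.2 then A c else 0

/-- the terms with `k ≤ 1`, normalized -/
noncomputable def dd (A : Nat.Primes × ℕ → ℂ) (e : ℕ) (c : Nat.Primes × ℕ) : ℂ :=
  if c.2 ≤ 1 then A c / ((Qc c : ℕ) : ℂ) ^ e else 0

theorem A2_sum (h : CB A e C) {σ : ℝ} (hσ : (e : ℝ) + 5 / 6 < σ) :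
    Summable (fun c => ‖A2 A c‖ * (Qc c : ℝ) ^ (-σ)) := by
  have h1 := (summable_Q (σ - e - 1 / 2) (by linarith) 2 (by push_cast; linarith)).mul_left C
  refine Summable.of_nonneg_of_le (fun c => mul_nonneg (norm_nonneg _)
    (Real.rpow_nonneg (Nat.cast_nonneg _) _)) (fun c => ?_) h1
  unfold A2
  have hQ0 : (0 : ℝ) < Qc c := by exact_mod_cast Qc_pos c
  split_ifs with hc
  · calc ‖A c‖ * (Qc c : ℝ) ^ (-σ) ≤ (C * (Qc c : ℝ) ^ ((e : ℝ) + 1 / 2)) * (Qc c : ℝ) ^ (-σ) :=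
          mul_le_mul_of_nonneg_right (h.h2 c) (by positivity)
      _ = C * (Qc c : ℝ) ^ (-(σ - e - 1 / 2)) := by
          rw [mul_assoc, ← Real.rpow_add hQ0]
          congr 2
          ring
  · rw [norm_zero, zero_mul, mul_zero]

theorem A2_diff (h : CB A e C) : DifferentiableOn ℂ
    (fun s => ∑' c : Nat.Primes × ℕ, A2 A c * ((Qc c : ℕ) : ℂ) ^ (-s)) {s : ℂ | (e : ℝ) + 5 / 6 < s.re} := by
  intro s hs
  simp only [Set.mem_ofPred_eq] at hs
  obtain ⟨σ₁, h1, h3⟩ := exists_between hs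
  have hopen : IsOpen {s : ℂ | σ₁ < s.re} := isOpen_lt continuous_const Complex.continuous_re
  have hd : DifferentiableOn ℂ
      (fun s => ∑' c : Nat.Primes × ℕ, A2 A c * ((Qc c : ℕ) : ℂ) ^ (-s)) {s : ℂ | σ₁ < s.re} := by
    refine Complex.differentiableOn_tsum_of_summable_norm (A2_sum h h1) ?_ hopen ?_
    · intro c s _
      have hq : ((Qc c : ℕ) : ℂ) ≠ 0 := by exact_mod_cast (Qc_pos c).ne'
      exact (((differentiableAt_id.neg).const_cpow (Or.inl hq)).const_mul _).differentiableWithinAt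
    · intro c s hs
      simp only [Set.mem_ofPred_eq] at hs
      rw [term_norm]
      apply mul_le_mul_of_nonneg_left _ (norm_nonneg _)
      apply Real.rpow_le_rpow_of_exponent_le (by exact_mod_cast Qc_pos c)
      linarith
  exact (hd.differentiableAt (hopen.mem_nhds h3)).differentiableWithinAt

theorem dd_bound (h : CB A e C) (c : Nat.Primes × ℕ) : ‖dd A e c‖ ≤ C := by
  unfold dd
  have hC := h.c0
  split_ifs with hc
  · have hQ : (0 : ℝ) < (Qc c : ℝ) ^ e := by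
      have : (0 : ℝ) < Qc c := by exact_mod_cast Qc_pos c
      positivity
    rw [norm_div, norm_pow, Complex.norm_natCast, div_le_iff₀ hQ]
    obtain ⟨p, k⟩ := c
    rcases Nat.eq_zero_or_pos k with hk | hk
    · subst hk
      rw [Qc_zero]
      exact h.h0 p
    · have hk1 : k = 1 := by
        have : k ≤ 1 := hc
        omega
      subst hk1
      have h1 := h.h1 p
      have h2 : ((Qc (p, 1) : ℕ) : ℝ) ^ e = ((p : ℕ) : ℝ) ^ (2 * e) := by
        rw [Qc, Nat.cast_pow, ← pow_mul]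
      rw [h2]
      exact h1
  · rw [norm_zero]
    exact hC

theorem split (h : CB A e C) {s : ℂ} (hs : (e : ℝ) + 1 < s.re) :
    ∑' c : Nat.Primes × ℕ, A c * ((Qc c : ℕ) : ℂ) ^ (-s) =
      SD (dd A e) (s - e) + ∑' c : Nat.Primes × ℕ, A2 A c * ((Qc c : ℕ) : ℂ) ^ (-s) := by
  have h1 : 1 < (s - e).re := by
    rw [Complex.sub_re, Complex.natCast_re]
    linarith
  have h2 := summable_bdd (dd_bound h) h1
  have h3 : Summable fun c => A2 A c * ((Qc c : ℕ) : ℂ) ^ (-s) := by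
    refine Summable.of_norm ?_
    refine (A2_sum h (σ := s.re) (by linarith)).congr fun c => ?_
    rw [term_norm]
  unfold SD
  rw [← h2.tsum_add h3]
  refine tsum_congr fun c => ?_
  have hQ : ((Qc c : ℕ) : ℂ) ≠ 0 := by exact_mod_cast (Qc_pos c).ne'
  unfold dd A2
  by_cases hc : c.2 ≤ 1
  · rw [if_pos hc, if_neg (by omega), zero_mul, add_zero]
    have h4 : ((Qc c : ℕ) : ℂ) ^ (-(s - e)) = ((Qc c : ℕ) : ℂ) ^ e * ((Qc c : ℕ) : ℂ) ^ (-s) := by
      rw [show -(s - (e : ℂ)) = (e : ℂ) + -s by ring, Complex.cpow_add _ _ hQ, Complex.cpow_natCast]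
    rw [h4, div_mul_eq_mul_div, mul_left_comm, mul_div_assoc, mul_div_assoc, mul_comm (_ ^ e),
      mul_assoc, div_mul_cancel₀]
    exact pow_ne_zero _ hQ
  · rw [if_neg hc, if_pos (by omega), zero_mul, zero_add]

end

section
variable {Y : Type} {pk : Y → Nat.Primes × ℕ} {e : ℕ} (D : Dat pk e)

theorem cbD {K : ℝ} (b0 : ∀ p : Nat.Primes, |Ac D (p, 0)| ≤ K * ((p : ℕ) : ℝ) ^ e)
    (b1 : ∀ p : Nat.Primes, |Ac D (p, 1)| ≤ K * ((p : ℕ) : ℝ) ^ (2 * e)) :
    CB (fun c => (Ac D c : ℂ)) e (max K (2 * D.C)) where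
  c0 := le_max_of_le_right (by have := D.hC; positivity)
  h0 p := by
    rw [Complex.norm_real, Real.norm_eq_abs]
    exact (b0 p).trans (mul_le_mul_of_nonneg_right (le_max_left _ _) (by positivity))
  h1 p := by
    rw [Complex.norm_real, Real.norm_eq_abs]
    exact (b1 p).trans (mul_le_mul_of_nonneg_right (le_max_left _ _) (by positivity))
  h2 c := by
    rw [Complex.norm_real, Real.norm_eq_abs]
    exact (Ac_trivial D c).trans (mul_le_mul_of_nonneg_right (le_max_right _ _) (by positivity))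

/-- **The order of the Euler product at the edge.** -/
theorem core2 {κ : Type} [Fintype κ] (L : κ → Type) [∀ j, Field (L j)] [∀ j, NumberField (L j)]
    (a : κ → ℝ) {r : ℤ} (hr : ∑ j, a j = r) {K : ℝ}
    (b0 : ∀ p : Nat.Primes, |Ac D (p, 0)| ≤ K * ((p : ℕ) : ℝ) ^ e)
    (b1 : ∀ p : Nat.Primes, |Ac D (p, 1)| ≤ K * ((p : ℕ) : ℝ) ^ (2 * e))
    (b : ∀ᶠ p : Nat.Primes in cofinite,
      ‖((Ac D (p, 0) / ((p : ℕ) : ℝ) ^ e : ℝ) : ℂ) + cmb L a p‖ ≤ K * ((p : ℕ) : ℝ) ^ (-(1 / 2) : ℝ)) :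
    ∃ Φ : ℂ → ℂ,
      (∀ s : ℂ, (e : ℝ) + 3 / 2 < s.re → HasProd (fun y : {y : Y // D.G y} =>
        (1 - (D.ag y.1 : ℂ) * (qq pk y.1 : ℂ) ^ (-s) + (qq pk y.1 : ℂ) ^ (1 - 2 * s))⁻¹) (Φ s)) ∧
      DifferentiableOn ℂ Φ {s : ℂ | (e : ℝ) + 1 < s.re} ∧
      MeromorphicAt Φ ((e : ℂ) + 1) ∧ meromorphicOrderAt Φ ((e : ℂ) + 1) = r := by
  classical
  have hCB := cbD D b0 b1
  set A : Nat.Primes × ℕ → ℂ := fun c => (Ac D c : ℂ) with hA
  obtain ⟨G, hG, hGe⟩ := near_one (L := L) (a := a) (d := dd A e) (dd_bound hCB) (D := K) (r := r) (by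
    filter_upwards [b] with p hp
    have h1 : dd A e (p, 0) = ((Ac D (p, 0) / ((p : ℕ) : ℝ) ^ e : ℝ) : ℂ) := by
      unfold dd
      rw [if_pos (Nat.zero_le _), Qc_zero, hA]
      push_cast
      rfl
    rw [h1]
    exact hp) hr
  have hopen1 : IsOpen {s : ℂ | (e : ℝ) + 1 < s.re} := isOpen_lt continuous_const Complex.continuous_re
  have hopen2 : IsOpen {s : ℂ | (e : ℝ) + 5 / 6 < s.re} :=
    isOpen_lt continuous_const Complex.continuous_re
  have hmem : ((e : ℂ) + 1) ∈ {s : ℂ | (e : ℝ) + 5 / 6 < s.re} := by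
    rw [Set.mem_ofPred_eq, Complex.add_re, Complex.natCast_re, Complex.one_re]
    linarith
  set Φ₀ : ℂ → ℂ := fun s => Complex.exp (∑' y : Y, rho D y s +
    ∑' c : Nat.Primes × ℕ, A c * ((Qc c : ℕ) : ℂ) ^ (-s)) with hΦ₀
  set P : ℂ → ℂ := fun s => ∑' y : Y, rho D y s +
    ∑' c : Nat.Primes × ℕ, A2 A c * ((Qc c : ℕ) : ℂ) ^ (-s) with hP
  set H : ℂ → ℂ := fun s => Complex.exp (P s + G (s - e)) with hH
  set Λ : ℂ → ℂ := fun s => (s - ((e : ℂ) + 1)) ^ r * H s with hΛ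
  have hPan : AnalyticAt ℂ P ((e : ℂ) + 1) :=
    ((rho_tsum_diff D).add (A2_diff hCB)).analyticAt (hopen2.mem_nhds hmem)
  have hGan : AnalyticAt ℂ (fun s : ℂ => G (s - e)) ((e : ℂ) + 1) := by
    have h1 : AnalyticAt ℂ (fun s : ℂ => s - (e : ℂ)) ((e : ℂ) + 1) := by fun_prop
    have h2 : AnalyticAt ℂ G ((fun s : ℂ => s - (e : ℂ)) ((e : ℂ) + 1)) := by
      have : (fun s : ℂ => s - (e : ℂ)) ((e : ℂ) + 1) = 1 := by simp
      rw [this]
      exact hG
    exact AnalyticAt.comp (g := G) (f := fun s : ℂ => s - (e : ℂ)) h2 h1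
  have hHan : AnalyticAt ℂ H ((e : ℂ) + 1) := (hPan.add hGan).cexp
  have hΛm : MeromorphicAt Λ ((e : ℂ) + 1) := by
    refine MeromorphicAt.mul ?_ hHan.meromorphicAt
    exact (MeromorphicAt.sub (MeromorphicAt.id _) (MeromorphicAt.const _ _)).zpow r
  have hΛo : meromorphicOrderAt Λ ((e : ℂ) + 1) = r := by
    rw [meromorphicOrderAt_eq_int_iff hΛm]
    exact ⟨H, hHan, Complex.exp_ne_zero _, Filter.Eventually.of_forall fun z => rfl⟩
  -- the two expressions
  have heq : ∀ᶠ s in 𝓝 ((e : ℂ) + 1), (e : ℝ) + 1 < s.re → Φ₀ s = Λ s := by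
    have h1 : Tendsto (fun s : ℂ => s - (e : ℂ)) (𝓝 ((e : ℂ) + 1)) (𝓝 1) := by
      have h2 : Continuous fun s : ℂ => s - (e : ℂ) := by fun_prop
      have h3 := h2.tendsto ((e : ℂ) + 1)
      rwa [add_sub_cancel_left] at h3
    filter_upwards [h1.eventually hGe] with s hs hre
    have h2 : 1 < (s - (e : ℂ)).re := by
      rw [Complex.sub_re, Complex.natCast_re]
      linarith
    rw [hΦ₀, hΛ, hH, hP]
    simp only
    rw [split hCB hre, ← add_assoc, add_right_comm, Complex.exp_add, hs h2]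
    have h4 : s - (e : ℂ) - 1 = s - ((e : ℂ) + 1) := by ring
    rw [h4, Complex.exp_add _ (G (s - e))]
    ring
  set Φ : ℂ → ℂ := fun s => if (e : ℝ) + 1 < s.re then Φ₀ s else Λ s with hΦ
  have hΦΛ : ∀ᶠ s in 𝓝 ((e : ℂ) + 1), Φ s = Λ s := by
    filter_upwards [heq] with s hs
    rw [hΦ]
    simp only
    split_ifs with h
    · exact hs h
    · rfl
  have hΦΛ' : Φ =ᶠ[𝓝[≠] ((e : ℂ) + 1)] Λ := Filter.EventuallyEq.filter_mono hΦΛ nhdsWithin_le_nhds
  refine ⟨Φ, ?_, ?_, hΛm.congr hΦΛ'.symm, by rw [meromorphicOrderAt_congr hΦΛ', hΛo]⟩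
  · intro s hs
    have h1 : Φ s = Φ₀ s := if_pos (by linarith)
    rw [h1]
    exact hasProd_good D s hs
  · have h1 : DifferentiableOn ℂ Φ₀ {s : ℂ | (e : ℝ) + 1 < s.re} := by
      refine DifferentiableOn.cexp (DifferentiableOn.add ((rho_tsum_diff D).mono ?_) (diffA hCB))
      intro s hs
      rw [Set.mem_ofPred_eq] at hs ⊢
      linarith
    refine h1.congr fun s hs => if_pos hs

end

end Pool.Agent.R410.BS
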