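import Pool.Agent.R410.BS.Pln

/-!
# The number of the points of the zero set of a squarefree polynomial
-/

set_option autoImplicit false
set_option linter.all false

open Polynomial NumberField
open Pool.Agent.R410.LW

namespace Pool.Agent.R410.BS

section
variable {A : Type} [CommRing A] {k : Type} [Field k]

theorem ev_prod {J : Type} (s : Finset J) (ψ : A →+* k) (z : k × k) (h : J → A[X][X]) :
    ev ψ z (∏ j ∈ s, h j) = ∏ j ∈ s, ev ψ z (h j) := map_prod _ _ _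

theorem ev_CC (ψ : A →+* k) (z : k × k) (a : A) : ev ψ z (C (C a)) = ψ a := by
  rw [ev_C, eval₂_C]

variable {J : Type} [Fintype J] (h : J → A[X][X]) (τ : A)

/-- the zero set -/
abbrev ZS (k : Type) [Field k] (h : J → A[X][X]) (τ : A) : Type :=
  Σ ψ : {ψ : A →+* k // ψ τ ≠ 0}, {z : k × k // ev ψ.1 z (∏ j, h j) = 0}

open Classical in
/-- the other factors -/
noncomputable def TT (h : J → A[X][X]) (τ : A) (j : J) : A[X][X] :=
  C (C τ) * ∏ i ∈ Finset.univ.erase j, h i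

variable [Finite k] [Algebra.FiniteType ℤ A]

theorem upper_le : Nat.card (ZS k h τ) ≤
    ∑ j, Nat.card {φ : AdjoinRoot (h j) →+* k // φ (AdjoinRoot.mk (h j) (C (C τ))) ≠ 0} := by
  classical
  have e1 : ∀ j, Nat.card {φ : AdjoinRoot (h j) →+* k // φ (AdjoinRoot.mk (h j) (C (C τ))) ≠ 0} =
      Nat.card (Σ ψ : A →+* k, {z : k × k // ev ψ z (h j) = 0 ∧ ev ψ z (C (C τ)) ≠ 0}) := fun j =>
    Nat.card_congr (homEquiv (h j) (C (C τ)))
  rw [Finset.sum_congr rfl fun j _ => e1 j, ← Nat.card_sigma]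
  have hex : ∀ w : ZS k h τ, ∃ j, ev w.1.1 w.2.1 (h j) = 0 := by
    intro w
    have h1 := w.2.2
    rw [ev_prod, Finset.prod_eq_zero_iff] at h1
    obtain ⟨j, -, hj⟩ := h1
    exact ⟨j, hj⟩
  choose j hj using hex
  refine Nat.card_le_card_of_injective (fun w => ⟨j w, w.1.1, w.2.1, hj w, by
    rw [ev_CC]
    exact w.1.2⟩) ?_
  intro w w' hw
  have h1 : w.1.1 = w'.1.1 ∧ w.2.1 = w'.2.1 := by
    have key : ∀ (v v' : Σ j, Σ ψ : A →+* k, {z : k × k // ev ψ z (h j) = 0 ∧ ev ψ z (C (C τ)) ≠ 0}),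
        v = v' → v.2.1 = v'.2.1 ∧ v.2.2.1 = v'.2.2.1 := by
      rintro v v' rfl
      exact ⟨rfl, rfl⟩
    exact key _ _ hw
  obtain ⟨⟨ψ, hψ⟩, ⟨z, hz⟩⟩ := w
  obtain ⟨⟨ψ', hψ'⟩, ⟨z', hz'⟩⟩ := w'
  obtain ⟨h2, h3⟩ := h1
  simp only at h2 h3
  subst h2 h3
  rfl

theorem lower_le : ∑ j, Nat.card {φ : AdjoinRoot (h j) →+* k // φ (AdjoinRoot.mk (h j) (TT h τ j)) ≠ 0} ≤
    Nat.card (ZS k h τ) := by
  classical
  have e1 : ∀ j, Nat.card {φ : AdjoinRoot (h j) →+* k // φ (AdjoinRoot.mk (h j) (TT h τ j)) ≠ 0} =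
      Nat.card (Σ ψ : A →+* k, {z : k × k // ev ψ z (h j) = 0 ∧ ev ψ z (TT h τ j) ≠ 0}) := fun j =>
    Nat.card_congr (homEquiv (h j) (TT h τ j))
  rw [Finset.sum_congr rfl fun j _ => e1 j, ← Nat.card_sigma]
  have hT : ∀ (ψ : A →+* k) (z : k × k) (j : J), ev ψ z (TT h τ j) ≠ 0 →
      ψ τ ≠ 0 ∧ ∀ i, i ≠ j → ev ψ z (h i) ≠ 0 := by
    intro ψ z j h0
    rw [TT, map_mul, ev_CC, ev_prod] at h0
    refine ⟨left_ne_zero_of_mul h0, fun i hi => ?_⟩
    exact Finset.prod_ne_zero_iff.1 (right_ne_zero_of_mul h0) i (Finset.mem_erase.2 ⟨hi, Finset.mem_univ i⟩)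
  refine Nat.card_le_card_of_injective (fun w => ⟨⟨w.2.1, (hT _ _ _ w.2.2.2.2).1⟩, ⟨w.2.2.1, by
    rw [ev_prod]
    exact Finset.prod_eq_zero (Finset.mem_univ w.1) w.2.2.2.1⟩⟩) ?_
  rintro ⟨j, ψ, z, hz, hz2⟩ ⟨j', ψ', z', hz', hz2'⟩ hw
  have h1 : ψ = ψ' ∧ z = z' := by
    have key : ∀ (v v' : ZS k h τ), v = v' → v.1.1 = v'.1.1 ∧ v.2.1 = v'.2.1 := by
      rintro v v' rfl
      exact ⟨rfl, rfl⟩
    exact key _ _ hw
  obtain ⟨h2, h3⟩ := h1
  subst h2 h3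
  have h4 : j = j' := by
    by_contra hne
    exact (hT _ _ _ hz2').2 j hne hz
  subst h4
  rfl

end

/-- **The number of the points of a family of plane curves.** -/
theorem plane {M : Type} [Field M] [CharZero M] (hM : FG M) {d : ℕ} (hd : Algebra.trdeg ℚ M = d)
    {J : Type} [Fintype J] (h : J → M[X][X]) (hm : ∀ j, (h j).Monic) (hirr : ∀ j, Irreducible (h j))
    (hinj : Function.Injective h) :
    ∃ (L : J → Type) (_ : ∀ j, Field (L j)) (_ : ∀ j, NumberField (L j)),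
      ∀ (A : Type) [CommRing A] [IsDomain A] [Algebra.FiniteType ℤ A] [Algebra A M]
        [IsFractionRing A M] (hA : J → A[X][X]), (∀ j, (hA j).Monic) →
          (∀ j, (hA j).map (mapRingHom (algebraMap A M)) = h j) → ∀ τ : A, τ ≠ 0 →
            ∃ (C : ℝ) (N : ℕ), 0 ≤ C ∧ N ≠ 0 ∧ ∀ (k : Type) [Field k] [Finite k],
              ((N : ℕ) : k) ≠ 0 → |(Nat.card (ZS k hA τ) : ℝ) -
                (∑ j, (Nat.card (𝓞 (L j) →+* k) : ℝ)) * (Nat.card k : ℝ) ^ (d + 1)| *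
                  √(Nat.card k : ℝ) ≤ C * (Nat.card k : ℝ) ^ (d + 1) := by
  classical
  choose K iK cK hFG htr hK using fun j => curve_field hM hd (hm j) (hirr j)
  choose L iL nL hL using fun j => landau_all (hFG j) (htr j)
  refine ⟨L, iL, nL, ?_⟩
  intro A _ _ _ _ _ hA hAm hAh τ hτ
  have hιinj : Function.Injective (algebraMap A M) := IsFractionRing.injective A M
  have hmapinj : Function.Injective (Polynomial.map (mapRingHom (algebraMap A M))) :=
    Polynomial.map_injective _ (Polynomial.map_injective _ hιinj)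
  have hhAinj : Function.Injective hA := fun i j hij => hinj (by rw [← hAh, ← hAh, hij])
  have hdA : ∀ j, (hA j).natDegree ≠ 0 := by
    intro j h0
    have h1 := (hAm j).natDegree_eq_zero.1 h0
    have h2 := hAh j
    rw [h1, Polynomial.map_one] at h2
    exact (hirr j).not_isUnit (by rw [← h2]; exact isUnit_one)
  have hτ0 : ∀ j, AdjoinRoot.mk (hA j) (C (C τ)) ≠ 0 := by
    intro j h0
    rw [AdjoinRoot.mk_eq_zero] at h0
    have h1 := natDegree_le_of_dvd h0 (by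
      rw [Ne, C_eq_zero, C_eq_zero]
      exact hτ)
    rw [natDegree_C] at h1
    exact hdA j (by omega)
  have hndvd : ∀ i j, i ≠ j → ¬ hA j ∣ hA i := by
    intro i j hij h0
    have h1 := Polynomial.map_dvd (mapRingHom (algebraMap A M)) h0
    rw [hAh, hAh] at h1
    have h2 := (hirr j).associated_of_dvd (hirr i) h1
    exact hij (hinj (eq_of_monic_of_associated (hm j) (hm i) h2)).symm
  have hT0 : ∀ j, AdjoinRoot.mk (hA j) (TT hA τ j) ≠ 0 := by
    intro j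
    have := (hK j A (hA j) (hAm j) (hAh j)).1
    rw [TT, map_mul, map_prod]
    refine mul_ne_zero (hτ0 j) (Finset.prod_ne_zero_iff.2 fun i hi => ?_)
    rw [ne_eq, AdjoinRoot.mk_eq_zero]
    exact hndvd i j (Finset.ne_of_mem_erase hi)
  have key : ∀ (j : J) (u : AdjoinRoot (hA j)), u ≠ 0 → ∃ (C : ℝ) (N : ℕ), 0 ≤ C ∧ N ≠ 0 ∧
          ∀ (k : Type) [Field k] [Finite k], ((N : ℕ) : k) ≠ 0 →
            |(Nat.card {φ : AdjoinRoot (hA j) →+* k // φ u ≠ 0} : ℝ) -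
              Nat.card (𝓞 (L j) →+* k) * (Nat.card k : ℝ) ^ (d + 1)| *
              √(Nat.card k : ℝ) ≤ C * (Nat.card k : ℝ) ^ (d + 1) := by
    intro j u hu
    obtain ⟨h1, h2, h3⟩ := hK j A (hA j) (hAm j) (hAh j)
    have h4 : Algebra.FiniteType ℤ (AdjoinRoot (hA j)) := inferInstance
    have h5 := ft_int _ h4
    exact hL j (AdjoinRoot (hA j)) u hu
  choose C1 N1 hC1 hN1 g1 using fun j => key j _ (hτ0 j)
  choose C2 N2 hC2 hN2 g2 using fun j => key j _ (hT0 j)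
  refine ⟨∑ j, (C1 j + C2 j), ∏ j, (N1 j * N2 j), Finset.sum_nonneg fun j _ =>
    add_nonneg (hC1 j) (hC2 j), Finset.prod_ne_zero_iff.2 fun j _ => mul_ne_zero (hN1 j) (hN2 j), ?_⟩
  intro k _ _ hk
  rw [Nat.cast_prod, Finset.prod_ne_zero_iff] at hk
  have hk1 : ∀ j, ((N1 j : ℕ) : k) ≠ 0 := fun j => by
    have := hk j (Finset.mem_univ j)
    rw [Nat.cast_mul] at this
    exact left_ne_zero_of_mul this
  have hk2 : ∀ j, ((N2 j : ℕ) : k) ≠ 0 := fun j => by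
    have := hk j (Finset.mem_univ j)
    rw [Nat.cast_mul] at this
    exact right_ne_zero_of_mul this
  have hup := upper_le (k := k) hA τ
  have hlo := lower_le (k := k) hA τ
  set s := √(Nat.card k : ℝ) with hs
  set Q := (Nat.card k : ℝ) ^ (d + 1) with hQ
  have hs0 : 0 ≤ s := Real.sqrt_nonneg _
  have hup' : (Nat.card (ZS k hA τ) : ℝ) ≤ ∑ j,
      (Nat.card {φ : AdjoinRoot (hA j) →+* k // φ (AdjoinRoot.mk (hA j) (C (C τ))) ≠ 0} : ℝ) := by
    exact_mod_cast hup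
  have hlo' : ∑ j, (Nat.card {φ : AdjoinRoot (hA j) →+* k //
      φ (AdjoinRoot.mk (hA j) (TT hA τ j)) ≠ 0} : ℝ) ≤ (Nat.card (ZS k hA τ) : ℝ) := by
    exact_mod_cast hlo
  have hsum1 : (∑ j, (Nat.card {φ : AdjoinRoot (hA j) →+* k //
      φ (AdjoinRoot.mk (hA j) (C (C τ))) ≠ 0} : ℝ) - (∑ j, (Nat.card (𝓞 (L j) →+* k) : ℝ)) * Q) * s ≤
      (∑ j, C1 j) * Q := by
    rw [Finset.sum_mul, ← Finset.sum_sub_distrib, Finset.sum_mul, Finset.sum_mul]
    refine Finset.sum_le_sum fun j _ => ?_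
    exact (mul_le_mul_of_nonneg_right (le_abs_self _) hs0).trans (g1 j k (hk1 j))
  have hsum2 : ((∑ j, (Nat.card (𝓞 (L j) →+* k) : ℝ)) * Q - ∑ j, (Nat.card {φ : AdjoinRoot (hA j) →+* k //
      φ (AdjoinRoot.mk (hA j) (TT hA τ j)) ≠ 0} : ℝ)) * s ≤ (∑ j, C2 j) * Q := by
    rw [Finset.sum_mul, ← Finset.sum_sub_distrib, Finset.sum_mul, Finset.sum_mul]
    refine Finset.sum_le_sum fun j _ => ?_
    refine (mul_le_mul_of_nonneg_right ?_ hs0).trans (g2 j k (hk2 j))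
    rw [abs_sub_comm]
    exact le_abs_self _
  have hQ0 : 0 ≤ Q := by positivity
  have hS1 : 0 ≤ ∑ j, C1 j := Finset.sum_nonneg fun j _ => hC1 j
  have hS2 : 0 ≤ ∑ j, C2 j := Finset.sum_nonneg fun j _ => hC2 j
  rw [Finset.sum_add_distrib, add_mul, ← abs_of_nonneg hs0, ← abs_mul, abs_le]
  constructor
  · have h1 := mul_le_mul_of_nonneg_right hlo' hs0
    nlinarith [mul_nonneg hS1 hQ0]
  · have h1 := mul_le_mul_of_nonneg_right hup' hs0
    nlinarith [mul_nonneg hS2 hQ0]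

end Pool.Agent.R410.BS
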