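import Pool.Agent.R410.BS.Sm
import Pool.Agent.R410.BS.Pln2

/-!
# The asymptotic value of the sum of the traces
-/

set_option autoImplicit false
set_option linter.all false

open Polynomial NumberField

namespace Pool.Agent.R410.BS

open Pool.Agent.TH958.An (trE tF)
open Pool.Agent.R410.LW

/-- the polynomial `f₀(x) - f(z)` -/
noncomputable def PP {A : Type} [CommRing A] (f₀ f : A[X]) : A[X][X] := f₀.map C - C f

section
variable {A : Type} [CommRing A] {k : Type} [Field k]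

theorem ev_PP (f₀ f : A[X]) (ψ : A →+* k) (z : k × k) :
    ev ψ z (PP f₀ f) = (f₀.map ψ).eval z.2 - (f.map ψ).eval z.1 := by
  unfold PP
  rw [map_sub, ev_C, eval_map, eval_map]
  congr 1
  unfold ev
  rw [coe_eval₂RingHom, eval₂_map]
  congr 1
  ext a
  simp

theorem card_NN [Fintype k] [DecidableEq k] (f₀ f : A[X]) (ψ : A →+* k) :
    Nat.card {z : k × k // ev ψ z (PP f₀ f) = 0} = NN (f₀.map ψ) (f.map ψ) := by
  classical
  rw [NN, ← Fintype.card_subtype, ← Nat.card_eq_fintype_card]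
  refine Nat.card_congr (Equiv.subtypeEquiv (Equiv.prodComm k k) fun z => ?_)
  rw [ev_PP, sub_eq_zero]
  rfl

end

/-- **The sum of the traces.** -/
theorem main_sum {M : Type} [Field M] [CharZero M] (hM : FG M) {d : ℕ} (hd : Algebra.trdeg ℚ M = d)
    {r : ℕ} {J : Fin r → Type} [∀ i, Fintype (J i)] (h : ∀ i, J i → M[X][X])
    (hm : ∀ i j, (h i j).Monic) (hirr : ∀ i j, Irreducible (h i j))
    (hinj : ∀ i, Function.Injective (h i)) :
    ∃ (L : Type) (_ : Field L) (_ : NumberField L) (LL : ∀ i, J i → Type) (_ : ∀ i j, Field (LL i j))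
      (_ : ∀ i j, NumberField (LL i j)),
      ∀ (A : Type) [CommRing A] [IsDomain A] [Algebra.FiniteType ℤ A] [Algebra A M]
        [IsFractionRing A M] (hA : ∀ i, J i → A[X][X]) (f₀ : A[X]) (f : Fin r → A[X]),
        f₀.Monic → f₀.natDegree = 3 → (∀ i, (f i).Monic ∧ Odd (f i).natDegree) →
        (∀ i j, (hA i j).Monic) → (∀ i j, (hA i j).map (mapRingHom (algebraMap A M)) = h i j) →
        (∀ i, ∏ j, hA i j = PP f₀ (f i)) → ∀ τ : A, τ ≠ 0 → ∃ (C : ℝ) (N : ℕ), 0 ≤ C ∧ N ≠ 0 ∧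
          ∀ (F : Type) [Field F] [Fintype F] [Fintype (BB f →+* F)], ((N : ℕ) : F) ≠ 0 →
            |∑ φ : BB f →+* F, (open Classical in if φ (cst f τ) ≠ 0 then
                tF (EB f f₀) (EB f f₀).Δ φ else 0) +
              (∑ i, ∑ j, (Nat.card (𝓞 (LL i j) →+* F) : ℝ) - r * (Nat.card (𝓞 L →+* F) : ℝ)) *
                (Nat.card F : ℝ) ^ (d + 1 + r)| * √(Nat.card F : ℝ) ≤
              C * (Nat.card F : ℝ) ^ (d + 1 + r) := by
  classical
  obtain ⟨L, iL, nL, hL⟩ := landau_all hM hd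
  choose LL iLL nLL hLL using fun i => plane hM hd (h i) (hm i) (hirr i) (hinj i)
  refine ⟨L, iL, nL, LL, iLL, nLL, ?_⟩
  intro A _ _ _ _ _ hA f₀ f hf₀ hd₀ hf hAm hAh hprod τ hτ
  obtain ⟨C1, N1, hC1, hN1, g1⟩ := hL A τ hτ
  choose C2 N2 hC2 hN2 g2 using fun i => hLL i A (hA i) (hAm i) (hAh i) τ hτ
  obtain ⟨C3, hC3, g3⟩ := hom_le (R := A) (K := M) (IsFractionRing.injective A M) hd.le
  set B : ℝ := 3 + ∑ i, ((f i).natDegree : ℝ) with hB
  have hB0 : 0 ≤ B := by positivity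
  obtain ⟨C4, hC4, g4⟩ := fib_sum r B hB0 2
  refine ⟨C4 * C3 + ∑ i, C2 i + r * C1, 6 * N1 * ∏ i, N2 i, by
    have := Finset.sum_nonneg (s := Finset.univ) fun i (_ : i ∈ Finset.univ) => hC2 i
    positivity, mul_ne_zero (mul_ne_zero (by norm_num) hN1)
      (Finset.prod_ne_zero_iff.2 fun i _ => hN2 i), ?_⟩
  intro F _ _ _ hN
  rw [Nat.cast_mul, Nat.cast_mul, Nat.cast_prod] at hN
  have h6 : (6 : F) ≠ 0 := by
    have := left_ne_zero_of_mul (left_ne_zero_of_mul hN)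
    simpa using this
  have hN1F : ((N1 : ℕ) : F) ≠ 0 := right_ne_zero_of_mul (left_ne_zero_of_mul hN)
  have hN2F : ∀ i, ((N2 i : ℕ) : F) ≠ 0 := fun i =>
    Finset.prod_ne_zero_iff.1 (right_ne_zero_of_mul hN) i (Finset.mem_univ i)
  have h2 : (2 : F) ≠ 0 := fun h => h6 (by
    have : (6 : F) = 2 * 3 := by norm_num
    rw [this, h, zero_mul])
  have hF : ringChar F ≠ 2 := by
    intro h
    have := ringChar.Nat.cast_ringChar (R := F)
    rw [h] at this
    exact h2 (by exact_mod_cast this)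
  let _ : Fintype (A →+* F) := Fintype.ofFinite _
  have e0 := sum_bb f f₀ hF hf₀ hd₀ τ
  have e1 : ∑ φ : BB f →+* F, (if φ (cst f τ) ≠ 0 then tF (EB f f₀) (EB f f₀).Δ φ else 0) =
      ∑ ψ ∈ Finset.univ.filter (fun ψ : A →+* F => ψ τ ≠ 0),
        ∑ w ∈ Finset.univ.filter (fun w => w ∉ Finset.univ.filter fun w => (cub (f₀.map ψ) w).Δ = 0),
          (-(Sw (f₀.map ψ) w : ℝ)) * ∏ i, ((Fintype.card F : ℝ) + Sw ((f i).map ψ) w) := by
    rw [e0, Finset.sum_filter]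
  set P := Finset.univ.filter (fun ψ : A →+* F => ψ τ ≠ 0) with hP
  have hq : (Nat.card F : ℝ) = (Fintype.card F : ℝ) := by rw [Nat.card_eq_fintype_card]
  rw [hq]
  set q : ℝ := (Fintype.card F : ℝ) with hqdef
  have hq1 : 1 ≤ q := by rw [hqdef]; exact_mod_cast Fintype.card_pos
  have hq0 : 0 ≤ q := by linarith
  set s := √q with hs
  have hs0 : 0 ≤ s := Real.sqrt_nonneg _
  have hss : s * s = q := Real.mul_self_sqrt hq0
  -- the sums over the parameter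
  have t1 : ∀ ψ ∈ P, |∑ w ∈ Finset.univ.filter (fun w => w ∉ Finset.univ.filter fun w =>
      (cub (f₀.map ψ) w).Δ = 0), (-(Sw (f₀.map ψ) w : ℝ)) * ∏ i, (q + Sw ((f i).map ψ) w) +
        q ^ r * ∑ i, ((NN (f₀.map ψ) ((f i).map ψ) : ℝ) - q)| ≤ C4 * (q ^ r * s) := by
    intro ψ _
    refine g4 F hF (f₀.map ψ) (fun i => (f i).map ψ) (hf₀.map _) ?_ ?_ (fun i => ⟨(hf i).1.map _, ?_, ?_⟩)
      _ (bad_card h6 _)
    · rw [hf₀.natDegree_map, hd₀]
      decide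
    · rw [hf₀.natDegree_map, hd₀, hB]
      have : 0 ≤ ∑ i, ((f i).natDegree : ℝ) := Finset.sum_nonneg fun i _ => Nat.cast_nonneg _
      push_cast
      linarith
    · rw [(hf i).1.natDegree_map]
      exact (hf i).2
    · rw [(hf i).1.natDegree_map, hB]
      have := Finset.single_le_sum (f := fun i => ((f i).natDegree : ℝ))
        (fun i _ => Nat.cast_nonneg _) (Finset.mem_univ i)
      linarith
  -- the numbers of the points
  have t2 : ∀ i, (∑ ψ ∈ P, (NN (f₀.map ψ) ((f i).map ψ) : ℝ)) = Nat.card (ZS F (hA i) τ) := by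
    intro i
    rw [Nat.card_sigma]
    push_cast
    rw [hP, Finset.sum_subtype (p := fun ψ : A →+* F => ψ τ ≠ 0) _ (fun ψ => by simp)]
    have hfs : ∀ (i1 i2 : Fintype {ψ : A →+* F // ψ τ ≠ 0}), i1 = i2 := fun _ _ => Subsingleton.elim _ _
    refine Finset.sum_congr (by congr!) fun ψ _ => ?_
    rw [← card_NN, hprod]
  have t3 : (P.card : ℝ) = Nat.card {ψ : A →+* F // ψ τ ≠ 0} := by
    rw [hP, ← Fintype.card_subtype, ← Nat.card_eq_fintype_card]
  have t4 : (P.card : ℝ) ≤ C3 * q ^ d := by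
    have h1 := g3 F
    rw [hq] at h1
    refine le_trans ?_ h1
    rw [Nat.card_eq_fintype_card]
    exact_mod_cast Finset.card_le_univ P
  have g1' := g1 F hN1F
  rw [hq, ← t3] at g1'
  have g2' : ∀ i, |(Nat.card (ZS F (hA i) τ) : ℝ) - (∑ j, (Nat.card (𝓞 (LL i j) →+* F) : ℝ)) *
      q ^ (d + 1)| * s ≤ C2 i * q ^ (d + 1) := by
    intro i
    have h1 := g2 i F (hN2F i)
    rwa [hq] at h1
  -- the total
  have t5 : |∑ ψ ∈ P, ∑ w ∈ Finset.univ.filter (fun w => w ∉ Finset.univ.filter fun w =>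
      (cub (f₀.map ψ) w).Δ = 0), (-(Sw (f₀.map ψ) w : ℝ)) * ∏ i, (q + Sw ((f i).map ψ) w) +
        q ^ r * (∑ i, (Nat.card (ZS F (hA i) τ) : ℝ) - r * (q * P.card))| ≤
      P.card * (C4 * (q ^ r * s)) := by
    have e2 : q ^ r * (∑ i, (Nat.card (ZS F (hA i) τ) : ℝ) - r * (q * P.card)) =
        ∑ ψ ∈ P, q ^ r * ∑ i, ((NN (f₀.map ψ) ((f i).map ψ) : ℝ) - q) := by
      rw [← Finset.mul_sum, Finset.sum_comm]
      congr 1
      have e3 : ∀ i, ∑ ψ ∈ P, ((NN (f₀.map ψ) ((f i).map ψ) : ℝ) - q) =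
          (Nat.card (ZS F (hA i) τ) : ℝ) - q * P.card := by
        intro i
        rw [Finset.sum_sub_distrib, t2, Finset.sum_const, nsmul_eq_mul, mul_comm]
      rw [Finset.sum_congr rfl fun i _ => e3 i, Finset.sum_sub_distrib, Finset.sum_const,
        Finset.card_univ, Fintype.card_fin, nsmul_eq_mul]
    rw [e2, ← Finset.sum_add_distrib]
    refine (Finset.abs_sum_le_sum_abs _ _).trans ((Finset.sum_le_card_nsmul _ _ _ t1).trans ?_)
    rw [nsmul_eq_mul]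
  have e1' : (∑ φ : BB f →+* F, (open Classical in if φ (cst f τ) ≠ 0 then
      tF (EB f f₀) (EB f f₀).Δ φ else 0)) =
      ∑ ψ ∈ P, ∑ w ∈ Finset.univ.filter (fun w => w ∉ Finset.univ.filter fun w =>
      (cub (f₀.map ψ) w).Δ = 0), (-(Sw (f₀.map ψ) w : ℝ)) * ∏ i, (q + Sw ((f i).map ψ) w) := by
    rw [← e1]
  rw [e1']
  set T := ∑ ψ ∈ P, ∑ w ∈ Finset.univ.filter (fun w => w ∉ Finset.univ.filter fun w =>
      (cub (f₀.map ψ) w).Δ = 0), (-(Sw (f₀.map ψ) w : ℝ)) * ∏ i, (q + Sw ((f i).map ψ) w)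
  set HL : ℝ := ((Nat.card (𝓞 L →+* F) : ℕ) : ℝ)
  have e4 : T + (∑ i, ∑ j, (Nat.card (𝓞 (LL i j) →+* F) : ℝ) - r * HL) * q ^ (d + 1 + r) =
      (T + q ^ r * (∑ i, (Nat.card (ZS F (hA i) τ) : ℝ) - r * (q * P.card))) -
      q ^ r * ∑ i, ((Nat.card (ZS F (hA i) τ) : ℝ) -
        (∑ j, (Nat.card (𝓞 (LL i j) →+* F) : ℝ)) * q ^ (d + 1)) +
      q ^ (r + 1) * r * (P.card - HL * q ^ d) := by
    rw [Finset.sum_sub_distrib, ← Finset.sum_mul]
    ring
  have hqr : 0 ≤ q ^ r := pow_nonneg hq0 _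
  have b1 : |T + q ^ r * (∑ i, (Nat.card (ZS F (hA i) τ) : ℝ) - r * (q * P.card))| * s ≤
      C4 * C3 * q ^ (d + 1 + r) := by
    calc _ ≤ P.card * (C4 * (q ^ r * s)) * s := mul_le_mul_of_nonneg_right t5 hs0
      _ ≤ (C3 * q ^ d) * (C4 * (q ^ r * s)) * s := by
          refine mul_le_mul_of_nonneg_right ?_ hs0
          exact mul_le_mul_of_nonneg_right t4 (by positivity)
      _ = C4 * C3 * (q ^ d * q ^ r) * (s * s) := by ring
      _ = C4 * C3 * q ^ (d + 1 + r) := by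
          rw [hss]
          ring
  have b2 : |q ^ r * ∑ i, ((Nat.card (ZS F (hA i) τ) : ℝ) -
        (∑ j, (Nat.card (𝓞 (LL i j) →+* F) : ℝ)) * q ^ (d + 1))| * s ≤
      (∑ i, C2 i) * q ^ (d + 1 + r) := by
    rw [abs_mul, abs_of_nonneg hqr]
    calc q ^ r * |∑ i, ((Nat.card (ZS F (hA i) τ) : ℝ) -
          (∑ j, (Nat.card (𝓞 (LL i j) →+* F) : ℝ)) * q ^ (d + 1))| * s ≤
        q ^ r * (∑ i, |(Nat.card (ZS F (hA i) τ) : ℝ) -
          (∑ j, (Nat.card (𝓞 (LL i j) →+* F) : ℝ)) * q ^ (d + 1)|) * s :=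
          mul_le_mul_of_nonneg_right (mul_le_mul_of_nonneg_left
            (Finset.abs_sum_le_sum_abs _ _) hqr) hs0
      _ = q ^ r * ∑ i, (|(Nat.card (ZS F (hA i) τ) : ℝ) -
          (∑ j, (Nat.card (𝓞 (LL i j) →+* F) : ℝ)) * q ^ (d + 1)| * s) := by
          rw [mul_assoc, Finset.sum_mul]
      _ ≤ q ^ r * ∑ i, C2 i * q ^ (d + 1) :=
          mul_le_mul_of_nonneg_left (Finset.sum_le_sum fun i _ => g2' i) hqr
      _ = (∑ i, C2 i) * q ^ (d + 1 + r) := by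
          rw [← Finset.sum_mul]
          ring
  have b3 : |q ^ (r + 1) * r * (P.card - HL * q ^ d)| * s ≤ r * C1 * q ^ (d + 1 + r) := by
    have hr0 : (0 : ℝ) ≤ q ^ (r + 1) * r := by positivity
    rw [abs_mul, abs_of_nonneg hr0]
    calc q ^ (r + 1) * r * |P.card - HL * q ^ d| * s =
          q ^ (r + 1) * r * (|P.card - HL * q ^ d| * s) := by ring
      _ ≤ q ^ (r + 1) * r * (C1 * q ^ d) := mul_le_mul_of_nonneg_left g1' hr0
      _ = r * C1 * q ^ (d + 1 + r) := by ring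
  rw [e4]
  calc _ ≤ (|T + q ^ r * (∑ i, (Nat.card (ZS F (hA i) τ) : ℝ) - r * (q * P.card))| +
        |q ^ r * ∑ i, ((Nat.card (ZS F (hA i) τ) : ℝ) -
          (∑ j, (Nat.card (𝓞 (LL i j) →+* F) : ℝ)) * q ^ (d + 1))| +
        |q ^ (r + 1) * r * (P.card - HL * q ^ d)|) * s := by
        refine mul_le_mul_of_nonneg_right ((abs_add_le _ _).trans ?_) hs0
        exact add_le_add (abs_sub _ _) le_rfl
    _ ≤ (C4 * C3 + ∑ i, C2 i + r * C1) * q ^ (d + 1 + r) := by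
        rw [add_mul, add_mul, add_mul, add_mul]
        exact add_le_add (add_le_add b1 b2) b3

end Pool.Agent.R410.BS
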