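import Pool.Agent.R410.BS.Cod2
import Pool.Agent.R410.LW.Main

/-!
# The number of the points of the zero set of a polynomial over a finitely generated field
-/

set_option autoImplicit false
set_option linter.all false

open Polynomial NumberField
open Pool.Agent.R410.LW

namespace Pool.Agent.R410.BS

/-- All the points outside a proper closed subset. -/
theorem landau_all {d : ℕ} {M : Type} [Field M] [CharZero M] (hM : FG M)
    (h : Algebra.trdeg ℚ M = d) : ∃ (L : Type) (_ : Field L) (_ : NumberField L),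
      ∀ (A : Type) [CommRing A] [IsDomain A] [Algebra.FiniteType ℤ A] [Algebra A M]
        [IsFractionRing A M] (u : A), u ≠ 0 → ∃ (C : ℝ) (N : ℕ), 0 ≤ C ∧ N ≠ 0 ∧
          ∀ (k : Type) [Field k] [Finite k], ((N : ℕ) : k) ≠ 0 →
            |(Nat.card {φ : A →+* k // φ u ≠ 0} : ℝ) - Nat.card (𝓞 L →+* k) * (Nat.card k : ℝ) ^ d| *
              √(Nat.card k : ℝ) ≤ C * (Nat.card k : ℝ) ^ d := by
  classical
  obtain ⟨L, iL, nL, hL⟩ := landau d M hM h
  refine ⟨L, iL, nL, ?_⟩
  intro A _ _ _ _ _ u hu
  obtain ⟨s, hs, hA⟩ := hL A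
  obtain ⟨C, N, hC, hN, g⟩ := hA (s * u) (mul_ne_zero hs hu) (dvd_mul_right _ _)
  obtain ⟨C', N', hC', hN', g'⟩ := good_le (R := A) (K := M) (IsFractionRing.injective A M) h.le
    (mul_ne_zero hs hu)
  refine ⟨C + C', N * N', by positivity, mul_ne_zero hN hN', ?_⟩
  intro k _ _ hk
  rw [Nat.cast_mul] at hk
  have h1 := g k (left_ne_zero_of_mul hk)
  have h2 := (g' k (right_ne_zero_of_mul hk)).2
  have e1 : (Nat.card {φ : A →+* k // φ (s * u) ≠ 0} : ℝ) ≤ Nat.card {φ : A →+* k // φ u ≠ 0} := by
    have : Nat.card {φ : A →+* k // φ (s * u) ≠ 0} ≤ Nat.card {φ : A →+* k // φ u ≠ 0} := by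
      refine Nat.card_le_card_of_injective (fun φ => ⟨φ.1, fun h0 => φ.2 (by
        rw [map_mul, h0, mul_zero])⟩) ?_
      intro φ φ' h
      exact Subtype.ext (congrArg (fun w => w.1) h)
    exact_mod_cast this
  have e2 : (Nat.card {φ : A →+* k // φ u ≠ 0} : ℝ) ≤ Nat.card {φ : A →+* k // φ (s * u) ≠ 0} +
      Nat.card {φ : A →+* k // φ (s * u) = 0} := by
    have : Nat.card {φ : A →+* k // φ u ≠ 0} ≤ Nat.card {φ : A →+* k // φ (s * u) ≠ 0} +
      Nat.card {φ : A →+* k // φ (s * u) = 0} := by
      rw [← Nat.card_sum]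
      let j : {φ : A →+* k // φ u ≠ 0} → {φ : A →+* k // φ (s * u) ≠ 0} ⊕
        {φ : A →+* k // φ (s * u) = 0} := fun φ =>
        if h : φ.1 (s * u) = 0 then Sum.inr ⟨φ.1, h⟩ else Sum.inl ⟨φ.1, h⟩
      refine Nat.card_le_card_of_injective j ?_
      intro φ φ' h
      simp only [j] at h
      split_ifs at h with h3 h4 h4
      · exact Subtype.ext (congrArg (fun w => w.1) (Sum.inr.inj h))
      · exact Subtype.ext (congrArg (fun w => w.1) (Sum.inl.inj h))
    exact_mod_cast this
  have hq1 : (1 : ℝ) ≤ Nat.card k := by exact_mod_cast Nat.card_pos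
  have hs0 : 0 ≤ √(Nat.card k : ℝ) := Real.sqrt_nonneg _
  have hsq : √(Nat.card k : ℝ) ≤ Nat.card k := by
    rw [Real.sqrt_le_left (by linarith)]
    nlinarith
  have h3 : (Nat.card {φ : A →+* k // φ (s * u) = 0} : ℝ) * √(Nat.card k : ℝ) ≤
      C' * (Nat.card k : ℝ) ^ d :=
    (mul_le_mul_of_nonneg_left hsq (Nat.cast_nonneg _)).trans h2
  set X := (Nat.card {φ : A →+* k // φ u ≠ 0} : ℝ)
  set Y := (Nat.card {φ : A →+* k // φ (s * u) ≠ 0} : ℝ)
  set Z := (Nat.card {φ : A →+* k // φ (s * u) = 0} : ℝ)
  set H := (Nat.card (𝓞 L →+* k) * (Nat.card k : ℝ) ^ d : ℝ)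
  have h4 : |X - H| ≤ |Y - H| + Z := by
    have h5 : X - H = (Y - H) + (X - Y) := by ring
    rw [h5]
    refine (abs_add_le _ _).trans (add_le_add le_rfl ?_)
    rw [abs_of_nonneg (by linarith)]
    linarith
  calc |X - H| * √(Nat.card k : ℝ) ≤ (|Y - H| + Z) * √(Nat.card k : ℝ) :=
        mul_le_mul_of_nonneg_right h4 hs0
    _ = |Y - H| * √(Nat.card k : ℝ) + Z * √(Nat.card k : ℝ) := by ring
    _ ≤ (C + C') * (Nat.card k : ℝ) ^ d := by
        rw [add_mul]
        exact add_le_add h1 h3

section
variable {M K : Type} [Field M] [Field K]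

theorem mem_closure_of (Φ : M[X][X] →+* K) (Cf : Subfield K) (h1 : ∀ a : M, Φ (C (C a)) ∈ Cf)
    (h2 : Φ (C X) ∈ Cf) (h3 : Φ X ∈ Cf) (p : M[X][X]) : Φ p ∈ Cf := by
  have h4 : ∀ q : M[X], Φ (C q) ∈ Cf := by
    intro q
    induction q using Polynomial.induction_on' with
    | add p q hp hq => rw [C_add, map_add]; exact add_mem hp hq
    | monomial n a =>
      rw [← C_mul_X_pow_eq_monomial, C_mul, C_pow, map_mul, map_pow]
      exact mul_mem (h1 a) (pow_mem h2 n)
  induction p using Polynomial.induction_on' with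
  | add p q hp hq => rw [map_add]; exact add_mem hp hq
  | monomial n a =>
    rw [← C_mul_X_pow_eq_monomial, map_mul, map_pow]
    exact mul_mem (h4 a) (pow_mem h3 n)

end

section
variable {M : Type} [Field M] [CharZero M] {h : M[X][X]}

theorem of_inj (hm : h.Monic) (hd : h.natDegree ≠ 0) : Function.Injective (AdjoinRoot.of h) := by
  rw [injective_iff_map_eq_zero]
  intro p hp
  by_contra hp0
  have h1 : h ∣ C p := by
    rw [← AdjoinRoot.mk_eq_zero]
    exact hp
  have h2 := natDegree_le_of_dvd h1 (by rwa [Ne, C_eq_zero])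
  rw [natDegree_C] at h2
  omega

/-- the function field of the curve -/
theorem curve_field (hM : FG M) {d : ℕ} (hd : Algebra.trdeg ℚ M = d) (hm : h.Monic)
    (hirr : Irreducible h) :
    ∃ (K : Type) (_ : Field K) (_ : CharZero K), FG K ∧ Algebra.trdeg ℚ K = (d + 1 : ℕ) ∧
      ∀ (A : Type) [CommRing A] [IsDomain A] [Algebra A M] [IsFractionRing A M] (hA : A[X][X]),
        hA.Monic → hA.map (mapRingHom (algebraMap A M)) = h →
          IsDomain (AdjoinRoot hA) ∧ ∃ _ : Algebra (AdjoinRoot hA) K,
            IsFractionRing (AdjoinRoot hA) K := by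
  classical
  have hdeg : h.natDegree ≠ 0 := by
    intro h0
    have h1 := hm.natDegree_eq_zero.1 h0
    exact hirr.not_isUnit (by rw [h1]; exact isUnit_one)
  have hp : Prime h := hirr.prime
  have hdom : IsDomain (AdjoinRoot h) :=
    (Ideal.Quotient.isDomain_iff_prime (Ideal.span {h})).2
      ((Ideal.span_singleton_prime hp.ne_zero).2 hp)
  let B := AdjoinRoot h
  obtain ⟨K, iK, aK, fK⟩ : ∃ (K : Type) (_ : Field K) (_ : Algebra B K), IsFractionRing B K :=
    ⟨FractionRing B, inferInstance, inferInstance, inferInstance⟩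
  let _ : Algebra M[X] K := ((algebraMap B K).comp (algebraMap M[X] B)).toAlgebra
  have hst : IsScalarTower M[X] B K := IsScalarTower.of_algebraMap_eq' rfl
  let _ : Algebra M K := ((algebraMap M[X] K).comp C).toAlgebra
  have hBK : Function.Injective (algebraMap B K) := IsFractionRing.injective B K
  have hinj : Function.Injective (algebraMap M[X] B) := of_inj hm hdeg
  have hinjK : Function.Injective (algebraMap M[X] K) := by
    rw [IsScalarTower.algebraMap_eq M[X] B K]
    exact hBK.comp hinj
  have hc : CharZero K := charZero_of_injective_algebraMap (algebraMap M K).injective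
  have hfin : Module.Finite M[X] B := hm.finite_adjoinRoot
  have halg1 : Algebra.IsAlgebraic M[X] B := inferInstance
  have halg2 : Algebra.IsAlgebraic B K := IsLocalization.isAlgebraic (R := B) (S := K) (nonZeroDivisors B)
  have hfs1 : FaithfulSMul M[X] B := (faithfulSMul_iff_algebraMap_injective _ _).2 hinj
  have hfs2 : FaithfulSMul M[X] K := (faithfulSMul_iff_algebraMap_injective _ _).2 hinjK
  have halg : Algebra.IsAlgebraic M[X] K := Algebra.IsAlgebraic.trans M[X] B K
  refine ⟨K, inferInstance, hc, ?_, ?_, ?_⟩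
  · obtain ⟨S, hS⟩ := hM
    refine ⟨S.image (algebraMap M K) ∪ {algebraMap M[X] K X, algebraMap B K (AdjoinRoot.root h)}, ?_⟩
    set Cf := Subfield.closure ((S.image (algebraMap M K) ∪
      {algebraMap M[X] K X, algebraMap B K (AdjoinRoot.root h)} : Finset K) : Set K) with hCf
    have hMC : ∀ a : M, algebraMap M K a ∈ Cf := by
      intro a
      have ha : a ∈ Subfield.closure (S : Set M) := by rw [hS]; trivial
      have h1 : Subfield.closure (S : Set M) ≤ Cf.comap (algebraMap M K) := by
        rw [Subfield.closure_le]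
        intro s hs
        show algebraMap M K s ∈ Cf
        apply Subfield.subset_closure
        rw [Finset.coe_union, Finset.coe_image]
        exact Or.inl ⟨s, hs, rfl⟩
      exact h1 ha
    have hBC : ∀ b : B, algebraMap B K b ∈ Cf := by
      intro b
      obtain ⟨p, rfl⟩ := AdjoinRoot.mk_surjective b
      refine mem_closure_of ((algebraMap B K).comp (AdjoinRoot.mk h)) Cf ?_ ?_ ?_ p
      · intro a
        exact hMC a
      · apply Subfield.subset_closure
        rw [Finset.coe_union]
        right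
        rw [Finset.coe_insert]
        left
        rfl
      · apply Subfield.subset_closure
        rw [Finset.coe_union]
        right
        rw [Finset.coe_insert, Finset.coe_singleton]
        right
        rfl
    rw [eq_top_iff]
    intro z _
    obtain ⟨a, b, -, rfl⟩ := IsFractionRing.div_surjective (A := B) z
    exact div_mem (hBC a) (hBC b)
  · have h1 := trdeg_add_eq ℚ M (A := M[X])
    rw [Polynomial.trdeg_of_isDomain, hd] at h1
    have ht : IsScalarTower ℚ M[X] K := IsScalarTower.of_algebraMap_eq' (Subsingleton.elim _ _)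
    have h2 := trdeg_add_eq ℚ M[X] (A := K)
    rw [trdeg_eq_zero (R := M[X]) (A := K), add_zero, ← h1] at h2
    rw [← h2]
    push_cast
    rfl
  · intro A _ _ _ _ hA hAm hAh
    have hι : Function.Injective (algebraMap A M) := IsFractionRing.injective A M
    have hdomA : IsDomain (AdjoinRoot hA) := adj_domain hι hAm (by rw [hAh]; exact hirr)
    let J : AdjoinRoot hA →+* B := AdjoinRoot.lift ((AdjoinRoot.of h).comp (mapRingHom (algebraMap A M)))
      (AdjoinRoot.root h) (by
        rw [← eval₂_map, hAh]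
        exact AdjoinRoot.eval₂_root h)
    have e : ∀ p, J (AdjoinRoot.mk hA p) = AdjoinRoot.mk h (p.map (mapRingHom (algebraMap A M))) := by
      intro p
      show AdjoinRoot.lift _ _ _ (AdjoinRoot.mk hA p) = _
      rw [AdjoinRoot.lift_mk, ← eval₂_map]
      rw [← AdjoinRoot.algebraMap_eq, ← aeval_def, AdjoinRoot.aeval_eq]
    have hJ : Function.Injective J := by
      rw [injective_iff_map_eq_zero]
      intro b hb
      obtain ⟨p, rfl⟩ := AdjoinRoot.mk_surjective b
      rw [e, AdjoinRoot.mk_eq_zero, ← hAh] at hb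
      rw [AdjoinRoot.mk_eq_zero]
      exact (Polynomial.map_dvd_map _ (Polynomial.map_injective _ hι) hAm).1 hb
    refine ⟨hdomA, ((algebraMap B K).comp J).toAlgebra, ?_⟩
    let _ : Algebra (AdjoinRoot hA) K := ((algebraMap B K).comp J).toAlgebra
    refine frac_of_closure (R := AdjoinRoot hA) (M := K) (hBK.comp hJ) ?_
    set Cf := Subfield.closure (Set.range (algebraMap (AdjoinRoot hA) K)) with hCf
    have hval : ∀ p : A[X][X], algebraMap B K (AdjoinRoot.mk h (p.map (mapRingHom (algebraMap A M)))) ∈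
        Cf := by
      intro p
      rw [← e]
      exact Subfield.subset_closure ⟨AdjoinRoot.mk hA p, rfl⟩
    have hMC : ∀ a : M, algebraMap B K (AdjoinRoot.mk h (C (C a))) ∈ Cf := by
      intro a
      obtain ⟨x, y, -, rfl⟩ := IsFractionRing.div_surjective (A := A) a
      have h1 := hval (C (C x))
      have h2 := hval (C (C y))
      rw [Polynomial.map_C, coe_mapRingHom, Polynomial.map_C] at h1 h2
      have h3 : algebraMap B K (AdjoinRoot.mk h (C (C (algebraMap A M x / algebraMap A M y)))) =
          algebraMap B K (AdjoinRoot.mk h (C (C (algebraMap A M x)))) /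
            algebraMap B K (AdjoinRoot.mk h (C (C (algebraMap A M y)))) := by
        have h4 : ∀ a : M, algebraMap B K (AdjoinRoot.mk h (C (C a))) = algebraMap M K a := fun a => rfl
        rw [h4, h4, h4, map_div₀]
      rw [h3]
      exact div_mem h1 h2
    have hBC : ∀ b : B, algebraMap B K b ∈ Cf := by
      intro b
      obtain ⟨p, rfl⟩ := AdjoinRoot.mk_surjective b
      refine mem_closure_of ((algebraMap B K).comp (AdjoinRoot.mk h)) Cf hMC ?_ ?_ p
      · have h1 := hval (C X)
        rw [Polynomial.map_C, coe_mapRingHom, Polynomial.map_X] at h1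
        exact h1
      · have h1 := hval X
        rw [Polynomial.map_X] at h1
        exact h1
    rw [eq_top_iff]
    intro z _
    obtain ⟨a, b, -, rfl⟩ := IsFractionRing.div_surjective (A := B) z
    exact div_mem (hBC a) (hBC b)

end

end Pool.Agent.R410.BS
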